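import Mathlib
import Pool.Agent.Lib.MP_55bc5f_an.RDeriv

/-!
# Real calculus on domains which are étale over `ℂⁿ`
-/

set_option autoImplicit false
set_option linter.unusedSectionVars false

open scoped Manifold ContDiff Topology ComplexConjugate
open Set Filter Metric

namespace Pool.Agent.Lib.MP_55bc5f_an

/-- Complex `n`-space. -/
abbrev Cn (n : ℕ) : Type := Fin n → ℂ

/-- The square of the euclidean norm. -/
noncomputable def nsq {n : ℕ} (w : Cn n) : ℝ := ∑ j, ‖w j‖ ^ 2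

/-- A (Hausdorff, second countable) space which is étale over `ℂⁿ`. -/
structure Dom (n : ℕ) where
  carrier : Type
  [top : TopologicalSpace carrier]
  [t2 : T2Space carrier]
  [sc : SecondCountableTopology carrier]
  π : carrier → Cn n
  hπ : IsLocalHomeomorph π

attribute [instance] Dom.top Dom.t2 Dom.sc

instance {n : ℕ} : CoeSort (Dom n) Type := ⟨Dom.carrier⟩

instance {n : ℕ} (X : Dom n) : MeasurableSpace X := borel _
instance {n : ℕ} (X : Dom n) : BorelSpace X := ⟨rfl⟩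

section

variable {n : ℕ} (X : Dom n)
variable {W : Type} [NormedAddCommGroup W] [NormedSpace ℝ W]
variable {W' : Type} [NormedAddCommGroup W'] [NormedSpace ℝ W']

/-- `u` is smooth at `x`. -/
def SmAt (u : X → W) (x : X) : Prop :=
  ∃ g : Cn n → W, ContDiffAt ℝ ∞ g (X.π x) ∧ u =ᶠ[𝓝 x] g ∘ X.π

/-- `u` is smooth. -/
def Sm (u : X → W) : Prop := ∀ x, SmAt X u x

/-- The real derivative. -/
noncomputable def dR (u : X → W) (x : X) : Cn n →L[ℝ] W := fderiv ℝ (u ∘ ch X.hπ x) (X.π x)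

/-- `∂u/∂z_j`. -/
noncomputable def wd (j : Fin n) (u : X → ℂ) (x : X) : ℂ :=
  (1 / 2) * (dR X u x (Pi.single j 1) - Complex.I * dR X u x (Pi.single j Complex.I))

/-- `∂u/∂z̄_j`. -/
noncomputable def wdb (j : Fin n) (u : X → ℂ) (x : X) : ℂ :=
  (1 / 2) * (dR X u x (Pi.single j 1) + Complex.I * dR X u x (Pi.single j Complex.I))

/-- The Levi form of a real function. -/
noncomputable def Lev (φ : X → ℝ) (x : X) (w : Cn n) : ℝ :=
  (1 / 4) * (dR X (dR X φ) x w w + dR X (dR X φ) x (Complex.I • w) (Complex.I • w))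

variable {X}

lemma SmAt.congr {u v : X → W} {x : X} (hu : SmAt X u x) (h : u =ᶠ[𝓝 x] v) : SmAt X v x := by
  obtain ⟨g, h1, h2⟩ := hu
  exact ⟨g, h1, h.symm.trans h2⟩

lemma dR_congr {u v : X → W} {x : X} (h : u =ᶠ[𝓝 x] v) : dR X u x = dR X v x := by
  have h1 : u ∘ ch X.hπ x =ᶠ[𝓝 (X.π x)] v ∘ ch X.hπ x := (ch_tendsto X.hπ x).eventually h
  exact h1.fderiv_eq

lemma dR_eq {u : X → W} {g : Cn n → W} {x : X} (h : u =ᶠ[𝓝 x] g ∘ X.π) :
    dR X u x = fderiv ℝ g (X.π x) := by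
  have h1 : u ∘ ch X.hπ x =ᶠ[𝓝 (X.π x)] g := by
    apply comp_ch_eq X.hπ (ch_mem X.hπ x)
    rwa [ch_self]
  exact h1.fderiv_eq

lemma dR_eventually_eq {u : X → W} {g : Cn n → W} {x : X} (h : u =ᶠ[𝓝 x] g ∘ X.π) :
    dR X u =ᶠ[𝓝 x] (fderiv ℝ g) ∘ X.π := by
  filter_upwards [h.eventually_nhds] with y hy
  exact dR_eq hy

lemma SmAt.continuousAt {u : X → W} {x : X} (hu : SmAt X u x) : ContinuousAt u x := by
  obtain ⟨g, h1, h2⟩ := hu
  have h3 : ContinuousAt (g ∘ X.π) x := h1.continuousAt.comp X.hπ.continuous.continuousAt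
  exact h3.congr h2.symm

lemma Sm.continuous {u : X → W} (hu : Sm X u) : Continuous u :=
  continuous_iff_continuousAt.2 fun x => (hu x).continuousAt

lemma SmAt.const (c : W) (x : X) : SmAt X (fun _ : X => c) x :=
  ⟨fun _ => c, contDiffAt_const, EventuallyEq.refl _ _⟩

lemma Sm.const (c : W) : Sm X (fun _ : X => c) := fun x => SmAt.const c x

lemma SmAt.dR {u : X → W} {x : X} (hu : SmAt X u x) : SmAt X (dR X u) x := by
  obtain ⟨g, h1, h2⟩ := hu
  exact ⟨fderiv ℝ g, h1.fderiv_right (m := ∞) (by simp), dR_eventually_eq h2⟩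

lemma Sm.dR {u : X → W} (hu : Sm X u) : Sm X (dR X u) := fun x => (hu x).dR

/-- Smoothness in the chart. -/
lemma SmAt.ch {u : X → W} {x : X} {z : Cn n} (hz : z ∈ (ch X.hπ x).source)
    (hu : SmAt X u (ch X.hπ x z)) : ContDiffAt ℝ ∞ (u ∘ ch X.hπ x) z := by
  obtain ⟨g, h1, h2⟩ := hu
  rw [p_ch X.hπ hz] at h1
  exact h1.congr_of_eventuallyEq (comp_ch_eq X.hπ hz h2)

lemma dR_ch {u : X → W} {x : X} {z : Cn n} (hz : z ∈ (ch X.hπ x).source)
    (hu : SmAt X u (ch X.hπ x z)) : MP_55bc5f_an.dR X u (ch X.hπ x z) = fderiv ℝ (u ∘ ch X.hπ x) z := by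
  obtain ⟨g, h1, h2⟩ := hu
  rw [dR_eq h2, p_ch X.hπ hz, (comp_ch_eq X.hπ hz h2).fderiv_eq]

lemma SmAt.of_ch {u : X → W} {x : X} (h : ContDiffAt ℝ ∞ (u ∘ MP_55bc5f_an.ch X.hπ x) (X.π x)) :
    SmAt X u x := ⟨_, h, eq_comp_ch X.hπ u x⟩

lemma SmAt.pi (x : X) : SmAt X X.π x := ⟨id, contDiffAt_id, EventuallyEq.refl _ _⟩

lemma dR_pi (x : X) : MP_55bc5f_an.dR X X.π x = ContinuousLinearMap.id ℝ (Cn n) := by
  have h : MP_55bc5f_an.dR X X.π x = fderiv ℝ id (X.π x) :=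
    dR_eq (u := X.π) (g := id) (EventuallyEq.refl _ _)
  rw [h]
  exact fderiv_id

/-- Composition with a smooth map. -/
lemma SmAt.comp {u : X → W} {x : X} (hu : SmAt X u x) {F : W → W'} (hF : ContDiffAt ℝ ∞ F (u x)) :
    SmAt X (fun y => F (u y)) x := by
  obtain ⟨g, h1, h2⟩ := hu
  have h3 : u x = g (X.π x) := h2.self_of_nhds
  refine ⟨F ∘ g, ?_, ?_⟩
  · rw [h3] at hF
    exact hF.comp _ h1
  · filter_upwards [h2] with y hy
    simp only [Function.comp_apply] at hy ⊢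
    rw [hy]

lemma Sm.comp {u : X → W} (hu : Sm X u) {F : W → W'} (hF : ContDiff ℝ ∞ F) :
    Sm X (fun y => F (u y)) := fun x => (hu x).comp hF.contDiffAt

lemma dR_comp {u : X → W} {x : X} (hu : SmAt X u x) {F : W → W'}
    (hF : DifferentiableAt ℝ F (u x)) :
    MP_55bc5f_an.dR X (fun y => F (u y)) x = (fderiv ℝ F (u x)).comp (MP_55bc5f_an.dR X u x) := by
  obtain ⟨g, h1, h2⟩ := hu
  have h3 : u x = g (X.π x) := h2.self_of_nhds
  have h4 : (fun y => F (u y)) =ᶠ[𝓝 x] (F ∘ g) ∘ X.π := by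
    filter_upwards [h2] with y hy
    simp only [Function.comp_apply] at hy ⊢
    rw [hy]
  rw [dR_eq h4, dR_eq h2, h3]
  rw [h3] at hF
  exact fderiv_comp _ hF (h1.differentiableAt (by simp))

lemma dR_clm {u : X → W} {x : X} (hu : SmAt X u x) (L : W →L[ℝ] W') :
    MP_55bc5f_an.dR X (fun y => L (u y)) x = L.comp (MP_55bc5f_an.dR X u x) := by
  rw [dR_comp hu L.differentiableAt, L.fderiv]

lemma SmAt.clm {u : X → W} {x : X} (hu : SmAt X u x) (L : W →L[ℝ] W') :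
    SmAt X (fun y => L (u y)) x := hu.comp L.contDiff.contDiffAt

lemma Sm.clm {u : X → W} (hu : Sm X u) (L : W →L[ℝ] W') : Sm X (fun y => L (u y)) :=
  fun x => (hu x).clm L

lemma dR_const (c : W) (x : X) : MP_55bc5f_an.dR X (fun _ : X => c) x = 0 := by
  have h : MP_55bc5f_an.dR X (fun _ : X => c) x = fderiv ℝ (fun _ : Cn n => c) (X.π x) :=
    dR_eq (u := fun _ : X => c) (g := fun _ : Cn n => c) (EventuallyEq.refl _ _)
  rw [h]
  exact fderiv_const_apply c

lemma SmAt.add {u v : X → W} {x : X} (hu : SmAt X u x) (hv : SmAt X v x) :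
    SmAt X (fun y => u y + v y) x := by
  obtain ⟨f, hf1, hf2⟩ := hu
  obtain ⟨g, hg1, hg2⟩ := hv
  exact ⟨fun z => f z + g z, hf1.add hg1, by filter_upwards [hf2, hg2] with y h1 h2; simp [h1, h2]⟩

lemma Sm.add {u v : X → W} (hu : Sm X u) (hv : Sm X v) : Sm X (fun y => u y + v y) :=
  fun x => (hu x).add (hv x)

lemma dR_add {u v : X → W} {x : X} (hu : SmAt X u x) (hv : SmAt X v x) :
    MP_55bc5f_an.dR X (fun y => u y + v y) x = MP_55bc5f_an.dR X u x + MP_55bc5f_an.dR X v x := by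
  obtain ⟨f, hf1, hf2⟩ := hu
  obtain ⟨g, hg1, hg2⟩ := hv
  have h : (fun y => u y + v y) =ᶠ[𝓝 x] (fun z => f z + g z) ∘ X.π := by
    filter_upwards [hf2, hg2] with y h1 h2; simp [h1, h2]
  rw [dR_eq h, dR_eq hf2, dR_eq hg2]
  exact fderiv_fun_add (hf1.differentiableAt (by simp)) (hg1.differentiableAt (by simp))

lemma SmAt.neg {u : X → W} {x : X} (hu : SmAt X u x) : SmAt X (fun y => - u y) x := by
  obtain ⟨f, hf1, hf2⟩ := hu
  exact ⟨fun z => - f z, hf1.neg, by filter_upwards [hf2] with y h1; simp [h1]⟩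

lemma Sm.neg {u : X → W} (hu : Sm X u) : Sm X (fun y => - u y) := fun x => (hu x).neg

lemma dR_neg {u : X → W} {x : X} (hu : SmAt X u x) :
    MP_55bc5f_an.dR X (fun y => - u y) x = - MP_55bc5f_an.dR X u x := by
  obtain ⟨f, hf1, hf2⟩ := hu
  have h : (fun y => - u y) =ᶠ[𝓝 x] (fun z => - f z) ∘ X.π := by
    filter_upwards [hf2] with y h1; simp [h1]
  rw [dR_eq h, dR_eq hf2]
  exact fderiv_fun_neg

lemma SmAt.sub {u v : X → W} {x : X} (hu : SmAt X u x) (hv : SmAt X v x) :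
    SmAt X (fun y => u y - v y) x := by
  simpa [sub_eq_add_neg] using hu.add hv.neg

lemma Sm.sub {u v : X → W} (hu : Sm X u) (hv : Sm X v) : Sm X (fun y => u y - v y) :=
  fun x => (hu x).sub (hv x)

lemma dR_sub {u v : X → W} {x : X} (hu : SmAt X u x) (hv : SmAt X v x) :
    MP_55bc5f_an.dR X (fun y => u y - v y) x = MP_55bc5f_an.dR X u x - MP_55bc5f_an.dR X v x := by
  simp only [sub_eq_add_neg]
  rw [dR_add hu hv.neg, dR_neg hv]

lemma SmAt.sum {ι : Type*} {s : Finset ι} {u : ι → X → W} {x : X} (h : ∀ i ∈ s, SmAt X (u i) x) :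
    SmAt X (fun y => ∑ i ∈ s, u i y) x := by
  classical
  induction s using Finset.induction_on with
  | empty => simpa using SmAt.const (0 : W) x
  | insert a s ha ih =>
    simp only [Finset.sum_insert ha]
    exact (h a (Finset.mem_insert_self a s)).add (ih fun i hi => h i (Finset.mem_insert_of_mem hi))

lemma Sm.sum {ι : Type*} {s : Finset ι} {u : ι → X → W} (h : ∀ i ∈ s, Sm X (u i)) :
    Sm X (fun y => ∑ i ∈ s, u i y) := fun x => SmAt.sum fun i hi => h i hi x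

lemma dR_sum {ι : Type*} {s : Finset ι} {u : ι → X → W} {x : X} (h : ∀ i ∈ s, SmAt X (u i) x) :
    MP_55bc5f_an.dR X (fun y => ∑ i ∈ s, u i y) x = ∑ i ∈ s, MP_55bc5f_an.dR X (u i) x := by
  classical
  induction s using Finset.induction_on with
  | empty => simpa using dR_const (0 : W) x
  | insert a s ha ih =>
    simp only [Finset.sum_insert ha]
    rw [dR_add (h a (Finset.mem_insert_self a s))
      (SmAt.sum fun i hi => h i (Finset.mem_insert_of_mem hi)),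
      ih fun i hi => h i (Finset.mem_insert_of_mem hi)]

section alg

variable {A : Type} [NormedRing A] [NormedAlgebra ℝ A]

lemma SmAt.mul {u v : X → A} {x : X} (hu : SmAt X u x) (hv : SmAt X v x) :
    SmAt X (fun y => u y * v y) x := by
  obtain ⟨f, hf1, hf2⟩ := hu
  obtain ⟨g, hg1, hg2⟩ := hv
  exact ⟨fun z => f z * g z, hf1.mul hg1, by filter_upwards [hf2, hg2] with y h1 h2; simp [h1, h2]⟩

lemma Sm.mul {u v : X → A} (hu : Sm X u) (hv : Sm X v) : Sm X (fun y => u y * v y) :=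
  fun x => (hu x).mul (hv x)

end alg

lemma dR_mul {A : Type} [NormedCommRing A] [NormedAlgebra ℝ A] {u v : X → A} {x : X}
    (hu : SmAt X u x) (hv : SmAt X v x) :
    MP_55bc5f_an.dR X (fun y => u y * v y) x =
      u x • MP_55bc5f_an.dR X v x + v x • MP_55bc5f_an.dR X u x := by
  obtain ⟨f, hf1, hf2⟩ := hu
  obtain ⟨g, hg1, hg2⟩ := hv
  have h : (fun y => u y * v y) =ᶠ[𝓝 x] (fun z => f z * g z) ∘ X.π := by
    filter_upwards [hf2, hg2] with y h1 h2; simp [h1, h2]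
  rw [dR_eq h, dR_eq hf2, dR_eq hg2, hf2.self_of_nhds, hg2.self_of_nhds]
  exact fderiv_fun_mul (hf1.differentiableAt (by simp)) (hg1.differentiableAt (by simp))

lemma SmAt.ofReal {u : X → ℝ} {x : X} (hu : SmAt X u x) : SmAt X (fun y => (u y : ℂ)) x :=
  hu.clm Complex.ofRealCLM

lemma Sm.ofReal {u : X → ℝ} (hu : Sm X u) : Sm X (fun y => (u y : ℂ)) := fun x => (hu x).ofReal

lemma dR_ofReal {u : X → ℝ} {x : X} (hu : SmAt X u x) (v : Cn n) :
    MP_55bc5f_an.dR X (fun y => (u y : ℂ)) x v = (MP_55bc5f_an.dR X u x v : ℂ) := by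
  have := dR_clm hu Complex.ofRealCLM
  simp only [Complex.ofRealCLM_apply] at this
  rw [this]
  rfl

lemma SmAt.conj {u : X → ℂ} {x : X} (hu : SmAt X u x) : SmAt X (fun y => conj (u y)) x :=
  hu.clm (Complex.conjCLE : ℂ →L[ℝ] ℂ)

lemma Sm.conj {u : X → ℂ} (hu : Sm X u) : Sm X (fun y => conj (u y)) := fun x => (hu x).conj

lemma dR_conj {u : X → ℂ} {x : X} (hu : SmAt X u x) (v : Cn n) :
    MP_55bc5f_an.dR X (fun y => conj (u y)) x v = conj (MP_55bc5f_an.dR X u x v) := by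
  have := dR_clm hu (Complex.conjCLE : ℂ →L[ℝ] ℂ)
  have h2 : (fun y => (Complex.conjCLE : ℂ →L[ℝ] ℂ) (u y)) = fun y => conj (u y) := rfl
  rw [h2] at this
  rw [this]
  rfl

/-- A map which is smooth outside of its support. -/
lemma SmAt.of_notMem_tsupport {u : X → W} {x : X} (hx : x ∉ tsupport u) : SmAt X u x := by
  apply (SmAt.const (0 : W) x).congr
  filter_upwards [(isClosed_tsupport u).isOpen_compl.mem_nhds hx] with y hy
  exact (image_eq_zero_of_notMem_tsupport hy).symm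

lemma dR_of_notMem_tsupport {u : X → W} {x : X} (hx : x ∉ tsupport u) :
    MP_55bc5f_an.dR X u x = 0 := by
  rw [← dR_const (0 : W) x]
  apply dR_congr
  filter_upwards [(isClosed_tsupport u).isOpen_compl.mem_nhds hx] with y hy
  exact image_eq_zero_of_notMem_tsupport hy

/-! ### Wirtinger derivatives -/

lemma wd_congr {u v : X → ℂ} {x : X} (j : Fin n) (h : u =ᶠ[𝓝 x] v) : wd X j u x = wd X j v x := by
  rw [wd, wd, dR_congr h]

lemma wdb_congr {u v : X → ℂ} {x : X} (j : Fin n) (h : u =ᶠ[𝓝 x] v) :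
    wdb X j u x = wdb X j v x := by
  rw [wdb, wdb, dR_congr h]

lemma SmAt.wd {u : X → ℂ} {x : X} (hu : SmAt X u x) (j : Fin n) : SmAt X (wd X j u) x := by
  have h1 := hu.dR.clm (ContinuousLinearMap.apply ℝ ℂ (Pi.single j 1 : Cn n))
  have h2 := hu.dR.clm (ContinuousLinearMap.apply ℝ ℂ (Pi.single j Complex.I : Cn n))
  exact (SmAt.const (1 / 2 : ℂ) x).mul (h1.sub ((SmAt.const Complex.I x).mul h2))

lemma SmAt.wdb {u : X → ℂ} {x : X} (hu : SmAt X u x) (j : Fin n) : SmAt X (wdb X j u) x := by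
  have h1 := hu.dR.clm (ContinuousLinearMap.apply ℝ ℂ (Pi.single j 1 : Cn n))
  have h2 := hu.dR.clm (ContinuousLinearMap.apply ℝ ℂ (Pi.single j Complex.I : Cn n))
  exact (SmAt.const (1 / 2 : ℂ) x).mul (h1.add ((SmAt.const Complex.I x).mul h2))

lemma Sm.wd {u : X → ℂ} (hu : Sm X u) (j : Fin n) : Sm X (wd X j u) := fun x => (hu x).wd j
lemma Sm.wdb {u : X → ℂ} (hu : Sm X u) (j : Fin n) : Sm X (wdb X j u) := fun x => (hu x).wdb j

lemma wd_add {u v : X → ℂ} {x : X} (hu : SmAt X u x) (hv : SmAt X v x) (j : Fin n) :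
    MP_55bc5f_an.wd X j (fun y => u y + v y) x =
      MP_55bc5f_an.wd X j u x + MP_55bc5f_an.wd X j v x := by
  simp only [MP_55bc5f_an.wd, dR_add hu hv, _root_.add_apply]; ring

lemma wdb_add {u v : X → ℂ} {x : X} (hu : SmAt X u x) (hv : SmAt X v x) (j : Fin n) :
    MP_55bc5f_an.wdb X j (fun y => u y + v y) x =
      MP_55bc5f_an.wdb X j u x + MP_55bc5f_an.wdb X j v x := by
  simp only [MP_55bc5f_an.wdb, dR_add hu hv, _root_.add_apply]; ring

lemma wd_sub {u v : X → ℂ} {x : X} (hu : SmAt X u x) (hv : SmAt X v x) (j : Fin n) :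
    MP_55bc5f_an.wd X j (fun y => u y - v y) x =
      MP_55bc5f_an.wd X j u x - MP_55bc5f_an.wd X j v x := by
  simp only [MP_55bc5f_an.wd, dR_sub hu hv, _root_.sub_apply]; ring

lemma wdb_sub {u v : X → ℂ} {x : X} (hu : SmAt X u x) (hv : SmAt X v x) (j : Fin n) :
    MP_55bc5f_an.wdb X j (fun y => u y - v y) x =
      MP_55bc5f_an.wdb X j u x - MP_55bc5f_an.wdb X j v x := by
  simp only [MP_55bc5f_an.wdb, dR_sub hu hv, _root_.sub_apply]; ring

lemma wd_neg {u : X → ℂ} {x : X} (hu : SmAt X u x) (j : Fin n) :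
    MP_55bc5f_an.wd X j (fun y => - u y) x = - MP_55bc5f_an.wd X j u x := by
  simp only [MP_55bc5f_an.wd, dR_neg hu, _root_.neg_apply]; ring

lemma wdb_neg {u : X → ℂ} {x : X} (hu : SmAt X u x) (j : Fin n) :
    MP_55bc5f_an.wdb X j (fun y => - u y) x = - MP_55bc5f_an.wdb X j u x := by
  simp only [MP_55bc5f_an.wdb, dR_neg hu, _root_.neg_apply]; ring

lemma wd_mul {u v : X → ℂ} {x : X} (hu : SmAt X u x) (hv : SmAt X v x) (j : Fin n) :
    MP_55bc5f_an.wd X j (fun y => u y * v y) x =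
      u x * MP_55bc5f_an.wd X j v x + v x * MP_55bc5f_an.wd X j u x := by
  simp only [MP_55bc5f_an.wd, dR_mul hu hv, _root_.add_apply,
    _root_.smul_apply, smul_eq_mul]; ring

lemma wdb_mul {u v : X → ℂ} {x : X} (hu : SmAt X u x) (hv : SmAt X v x) (j : Fin n) :
    MP_55bc5f_an.wdb X j (fun y => u y * v y) x =
      u x * MP_55bc5f_an.wdb X j v x + v x * MP_55bc5f_an.wdb X j u x := by
  simp only [MP_55bc5f_an.wdb, dR_mul hu hv, _root_.add_apply,
    _root_.smul_apply, smul_eq_mul]; ring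

lemma wd_const (c : ℂ) (x : X) (j : Fin n) : MP_55bc5f_an.wd X j (fun _ : X => c) x = 0 := by
  simp [MP_55bc5f_an.wd, dR_const]

lemma wdb_const (c : ℂ) (x : X) (j : Fin n) : MP_55bc5f_an.wdb X j (fun _ : X => c) x = 0 := by
  simp [MP_55bc5f_an.wdb, dR_const]

lemma wd_conj {u : X → ℂ} {x : X} (hu : SmAt X u x) (j : Fin n) :
    MP_55bc5f_an.wd X j (fun y => conj (u y)) x = conj (MP_55bc5f_an.wdb X j u x) := by
  simp only [MP_55bc5f_an.wd, MP_55bc5f_an.wdb, dR_conj hu, map_mul, map_add, Complex.conj_I,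
    map_div₀, map_one, map_ofNat]; ring

lemma wdb_conj {u : X → ℂ} {x : X} (hu : SmAt X u x) (j : Fin n) :
    MP_55bc5f_an.wdb X j (fun y => conj (u y)) x = conj (MP_55bc5f_an.wd X j u x) := by
  simp only [MP_55bc5f_an.wd, MP_55bc5f_an.wdb, dR_conj hu, map_mul, map_sub, Complex.conj_I,
    map_div₀, map_one, map_ofNat]; ring

lemma wd_sum {ι : Type*} {s : Finset ι} {u : ι → X → ℂ} {x : X} (h : ∀ i ∈ s, SmAt X (u i) x)
    (j : Fin n) : MP_55bc5f_an.wd X j (fun y => ∑ i ∈ s, u i y) x =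
      ∑ i ∈ s, MP_55bc5f_an.wd X j (u i) x := by
  simp only [MP_55bc5f_an.wd, dR_sum h, _root_.sum_apply, Finset.mul_sum,
    ← Finset.sum_sub_distrib]

lemma wdb_sum {ι : Type*} {s : Finset ι} {u : ι → X → ℂ} {x : X} (h : ∀ i ∈ s, SmAt X (u i) x)
    (j : Fin n) : MP_55bc5f_an.wdb X j (fun y => ∑ i ∈ s, u i y) x =
      ∑ i ∈ s, MP_55bc5f_an.wdb X j (u i) x := by
  simp only [MP_55bc5f_an.wdb, dR_sum h, _root_.sum_apply, Finset.mul_sum,
    ← Finset.sum_add_distrib]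

/-- Holomorphic maps are smooth. -/
lemma SmAt.of_hol {W : Type} [NormedAddCommGroup W] [NormedSpace ℂ W] [CompleteSpace W]
    {u : X → W} {x : X} (hu : HolAt X.π u x) : SmAt X u x := by
  obtain ⟨g, h1, h2⟩ := hu
  refine ⟨g, ?_, h2⟩
  obtain ⟨ρ, hρ, hb⟩ := Metric.eventually_nhds_iff_ball.1 h1
  have h3 := Osgood.analyticOnNhd (f := g) (isOpen_ball (x := X.π x) (ε := ρ))
    (fun z hz => (hb z hz).differentiableWithinAt)
  have h4 : AnalyticAt ℂ g (X.π x) := h3 _ (mem_ball_self hρ)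
  exact (h4.restrictScalars (𝕜 := ℝ)).contDiffAt

lemma dR_of_hol {W : Type} [NormedAddCommGroup W] [NormedSpace ℂ W]
    {u : X → W} {x : X} (hu : HolAt X.π u x) (v : Cn n) :
    MP_55bc5f_an.dR X u x v = rd X.hπ u x v := by
  have h1 := (hu.ch_self X.hπ).self_of_nhds
  rw [MP_55bc5f_an.dR, rd, h1.fderiv_restrictScalars ℝ]
  rfl

lemma wdb_of_hol {u : X → ℂ} {x : X} (hu : HolAt X.π u x) (j : Fin n) :
    MP_55bc5f_an.wdb X j u x = 0 := by
  rw [MP_55bc5f_an.wdb, dR_of_hol hu, dR_of_hol hu]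
  have : (Pi.single j Complex.I : Cn n) = Complex.I • Pi.single j 1 := by
    rw [← Pi.single_smul]; simp
  rw [this, map_smul, smul_eq_mul, ← mul_assoc, Complex.I_mul_I]
  ring

lemma wd_of_hol {u : X → ℂ} {x : X} (hu : HolAt X.π u x) (j : Fin n) :
    MP_55bc5f_an.wd X j u x = rd X.hπ u x (Pi.single j 1) := by
  rw [MP_55bc5f_an.wd, dR_of_hol hu, dR_of_hol hu]
  have : (Pi.single j Complex.I : Cn n) = Complex.I • Pi.single j 1 := by
    rw [← Pi.single_smul]; simp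
  rw [this, map_smul, smul_eq_mul, ← mul_assoc, Complex.I_mul_I]
  ring

end

end Pool.Agent.Lib.MP_55bc5f_an
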