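import Mathlib
import Pool.Agent.Lib.MP_55bc5f_an.Defs

/-!
# Stein manifolds, envelopes of holomorphy, the meromorphic extension property (all domains in all
Stein manifolds)
-/

set_option autoImplicit false

open scoped Manifold ContDiff Topology
open Set Filter

namespace Pool.Agent.Lib.MP_55bc5f_an

section

variable {V : Type} [NormedAddCommGroup V] [NormedSpace ℂ V]
variable {E : Type} [NormedAddCommGroup E] [NormedSpace ℂ E]

/-- Stein manifolds: closed complex submanifolds of `ℂᴺ`. -/
def IsStein (S : CMan V) : Prop :=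
  ∃ (N : ℕ) (ι : S → (Fin N → ℂ)), MDifferentiable 𝓘(ℂ, V) 𝓘(ℂ, Fin N → ℂ) ι ∧
    (∀ x, Function.Injective (mfderiv 𝓘(ℂ, V) 𝓘(ℂ, Fin N → ℂ) ι x)) ∧
    Topology.IsClosedEmbedding ι

/-- The open subset `D` of `S` as a complex manifold. -/
noncomputable def CMan.sub (S : CMan V) (D : TopologicalSpace.Opens S) : CMan V where
  carrier := D

/-- `R` (with `j : D → R`) is the envelope of holomorphy of the complex manifold `D`: it is a
connected Stein manifold which contains `D` as an open submanifold, and every holomorphic function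
on `D` extends to `R`. -/
structure IsEnvelopeM (D R : CMan V) (j : D → R) : Prop where
  stein : IsStein R
  connected : ConnectedSpace R
  emb : Topology.IsOpenEmbedding j
  hol : MDifferentiable 𝓘(ℂ, V) 𝓘(ℂ, V) j
  imm : ∀ x, Function.Injective (mfderiv 𝓘(ℂ, V) 𝓘(ℂ, V) j x)
  extend : ∀ h : D → ℂ, MDifferentiable 𝓘(ℂ, V) 𝓘(ℂ, ℂ) h →
    ∃ H : R → ℂ, MDifferentiable 𝓘(ℂ, V) 𝓘(ℂ, ℂ) H ∧ ∀ x, H (j x) = h x

/-- `G` is (the graph of) a meromorphic map, in the sense of Remmert, from the complex manifold `M`
to the complex manifold `Y`: in every holomorphic chart `e` of `M` it is the graph of a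
meromorphic map from the open set `e.target` of `V` to `Y`. -/
def IsMeromorphicM (M : CMan V) (Y : CMan E) (G : Set (M × Y)) : Prop :=
  ∀ e ∈ IsManifold.maximalAtlas 𝓘(ℂ, V) ω M,
    IsMeromorphic (Subtype.val : e.target → V) Y {w | (e.symm w.1, w.2) ∈ G}

end

/-- The meromorphic extension property: for every domain `D` in a Stein manifold `S`, every
meromorphic map from `D` to `Y` extends to a meromorphic map from the envelope of holomorphy `R` of
`D` to `Y`. -/
def MEP {E : Type} [NormedAddCommGroup E] [NormedSpace ℂ E] (Y : CMan E) : Prop :=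
  ∀ (V : Type) [NormedAddCommGroup V] [NormedSpace ℂ V] [FiniteDimensional ℂ V] (S : CMan V)
    (D : TopologicalSpace.Opens S) (R : CMan V) (j : S.sub D → R),
    IsStein S → IsConnected (D : Set S) → IsEnvelopeM (S.sub D) R j →
    ∀ G : Set (S.sub D × Y), IsMeromorphicM (S.sub D) Y G →
      ∃ G' : Set (R × Y), IsMeromorphicM R Y G' ∧
        ∀ (x : S.sub D) (y : Y), (j x, y) ∈ G' ↔ (x, y) ∈ G

end Pool.Agent.Lib.MP_55bc5f_an
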