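import Mathlib
import Pool.Agent.Lib.MP_55bc5f_an.Full.Calc
import Pool.Agent.Lib.MP_55bc5f_an.Forms

/-!
# Manifolds immersed into `ℂᴺ` and their étale coordinates
-/

set_option autoImplicit false
set_option linter.unusedSectionVars false

open scoped Manifold ContDiff Topology ComplexConjugate
open Set Filter Metric

namespace Pool.Agent.Lib.MP_55bc5f_an

/-- The functions `z_I` are local coordinates at `x`, and `z` is a holomorphic function of them. -/
def Et {X : Type} [TopologicalSpace X] {n N : ℕ} (z : X → Cn N) (I : Fin n → Fin N) (x : X) : Prop :=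
  ∃ e : OpenPartialHomeomorph X (Cn n), x ∈ e.source ∧ (∀ y ∈ e.source, e y = fun a => z y (I a)) ∧
    DifferentiableOn ℂ (fun w => z (e.symm w)) e.target

/-- A complex manifold of dimension `n` with a holomorphic immersion `z` into `ℂᴺ`. -/
structure LM (n N : ℕ) where
  carrier : Type
  [top : TopologicalSpace carrier]
  [t2 : T2Space carrier]
  [sc : SecondCountableTopology carrier]
  z : carrier → Cn N
  cont : Continuous z
  et : ∀ x, ∃ I : Fin n → Fin N, Et z I x

attribute [instance] LM.top LM.t2 LM.sc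

instance {n N : ℕ} : CoeSort (LM n N) Type := ⟨LM.carrier⟩

section basic

variable {X : Type} [TopologicalSpace X] {n N : ℕ} {z : X → Cn N} {I I' : Fin n → Fin N} {x : X}

/-- The coordinate map. -/
def zc (z : X → Cn N) (I : Fin n → Fin N) (x : X) : Cn n := fun a => z x (I a)

/-- The projection of `ℂᴺ` to the coordinates in `I`. -/
noncomputable def prI (I : Fin n → Fin N) : Cn N →L[ℂ] Cn n :=
  ContinuousLinearMap.pi fun a => ContinuousLinearMap.proj (I a)

@[simp] lemma prI_apply (I : Fin n → Fin N) (v : Cn N) (a : Fin n) : prI I v a = v (I a) := rfl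

lemma zc_eq (z : X → Cn N) (I : Fin n → Fin N) (x : X) : zc z I x = prI I (z x) := rfl

lemma isOpen_et (z : X → Cn N) (I : Fin n → Fin N) : IsOpen {x | Et z I x} := by
  rw [isOpen_iff_mem_nhds]
  rintro x ⟨e, hx, he, hd⟩
  filter_upwards [e.open_source.mem_nhds hx] with y hy
  exact ⟨e, hy, he, hd⟩

lemma Et.eventually (h : Et z I x) : ∀ᶠ y in 𝓝 x, Et z I y := (isOpen_et z I).mem_nhds h

lemma Et.map_nhds (h : Et z I x) : map (zc z I) (𝓝 x) = 𝓝 (zc z I x) := by
  obtain ⟨e, hx, he, hd⟩ := h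
  have h1 : e =ᶠ[𝓝 x] zc z I := by
    filter_upwards [e.open_source.mem_nhds hx] with y hy
    exact he y hy
  rw [← Filter.map_congr h1, e.map_nhds_eq hx, he x hx]
  rfl

lemma Et.continuousAt (h : Et z I x) : ContinuousAt (zc z I) x := h.map_nhds.le

/-- `z` is a holomorphic function of `z_I`. -/
lemma Et.holAt_z (h : Et z I x) : HolAt (zc z I) z x := by
  obtain ⟨e, hx, he, hd⟩ := h
  refine ⟨fun w => z (e.symm w), ?_, ?_⟩
  · have h1 : zc z I x ∈ e.target := by
      have := e.map_source hx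
      rwa [he x hx] at this
    filter_upwards [e.open_target.mem_nhds h1] with w hw
    exact (hd w hw).differentiableAt (e.open_target.mem_nhds hw)
  · filter_upwards [e.open_source.mem_nhds hx] with y hy
    have h2 : e y = zc z I y := he y hy
    simp only [Function.comp_apply, ← h2, e.left_inv hy]

variable {W : Type} [NormedAddCommGroup W] [NormedSpace ℂ W]

lemma HolAt.toI {F : X → W} (hI : Et z I x) (h : HolAt z F x) : HolAt (zc z I) F x := by
  obtain ⟨g, hg1, hg2⟩ := h
  obtain ⟨Z, hZ1, hZ2⟩ := hI.holAt_z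
  have h0 : z x = Z (zc z I x) := hZ2.self_of_nhds
  refine ⟨fun w => g (Z w), ?_, ?_⟩
  · have h1 : Tendsto Z (𝓝 (zc z I x)) (𝓝 (z x)) := by
      rw [h0]; exact hZ1.self_of_nhds.continuousAt
    filter_upwards [hZ1, h1.eventually hg1] with w h2 h3
    exact h3.comp w h2
  · filter_upwards [hg2, hZ2] with y h1 h2
    simp only [Function.comp_apply] at h1 h2 ⊢
    rw [h1, ← h2]

lemma HolAt.ofI {F : X → W} (h : HolAt (zc z I) F x) : HolAt z F x := by
  obtain ⟨g, hg1, hg2⟩ := h
  refine ⟨fun w => g (prI I w), ?_, ?_⟩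
  · have h1 : Tendsto (prI I) (𝓝 (z x)) (𝓝 (zc z I x)) := (prI I).continuous.continuousAt
    filter_upwards [h1.eventually hg1] with w hw
    exact hw.comp w (prI I).differentiableAt
  · filter_upwards [hg2] with y hy
    exact hy

lemma holAt_iff {F : X → W} (hI : Et z I x) : HolAt z F x ↔ HolAt (zc z I) F x :=
  ⟨fun h => h.toI hI, fun h => h.ofI⟩

lemma holAt_coord (z : X → Cn N) (k : Fin N) (x : X) : HolAt z (fun y => z y k) x :=
  ⟨fun w => w k, Eventually.of_forall fun w => by fun_prop, EventuallyEq.refl _ _⟩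

lemma holAt_self (z : X → Cn N) (x : X) : HolAt z z x :=
  ⟨fun w => w, Eventually.of_forall fun w => by fun_prop, EventuallyEq.refl _ _⟩

lemma HolAt.const {V : Type} [NormedAddCommGroup V] [NormedSpace ℂ V] (p : X → V) (c : W) (x : X) :
    HolAt p (fun _ => c) x :=
  ⟨fun _ => c, Eventually.of_forall fun w => by fun_prop, EventuallyEq.refl _ _⟩

lemma HolAt.mul' {V : Type} [NormedAddCommGroup V] [NormedSpace ℂ V] {p : X → V} {f g : X → ℂ}
    (hf : HolAt p f x) (hg : HolAt p g x) : HolAt p (fun y => f y * g y) x := hf.smul hg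

lemma HolAt.pi {V : Type} [NormedAddCommGroup V] [NormedSpace ℂ V] {p : X → V} {ι : Type} [Fintype ι]
    {f : X → ι → W} (hf : ∀ i, HolAt p (fun y => f y i) x) : HolAt p f x := by
  choose g hg1 hg2 using hf
  refine ⟨fun w i => g i w, ?_, ?_⟩
  · filter_upwards [eventually_all.2 hg1] with w hw
    exact differentiableAt_pi.2 hw
  · filter_upwards [eventually_all.2 hg2] with y hy
    funext i
    exact hy i

lemma HolAt.apply {V : Type} [NormedAddCommGroup V] [NormedSpace ℂ V] {p : X → V} {ι : Type}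
    [Fintype ι] {f : X → ι → W} (hf : HolAt p f x) (i : ι) : HolAt p (fun y => f y i) x :=
  hf.comp_clm (ContinuousLinearMap.proj (R := ℂ) i)

lemma HolAt.clm_apply {V : Type} [NormedAddCommGroup V] [NormedSpace ℂ V] {W' : Type}
    [NormedAddCommGroup W'] [NormedSpace ℂ W'] {p : X → V} {f : X → (W →L[ℂ] W')} {g : X → W}
    (hf : HolAt p f x) (hg : HolAt p g x) : HolAt p (fun y => f y (g y)) x := by
  obtain ⟨F, hF1, hF2⟩ := hf
  obtain ⟨G, hG1, hG2⟩ := hg
  refine ⟨fun w => F w (G w), ?_, ?_⟩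
  · filter_upwards [hF1, hG1] with w h1 h2
    exact h1.clm_apply h2
  · filter_upwards [hF2, hG2] with y h1 h2
    simp only [Function.comp_apply] at h1 h2 ⊢
    rw [h1, h2]

lemma HolAt.clm_comp {V : Type} [NormedAddCommGroup V] [NormedSpace ℂ V] {W₁ W₂ : Type}
    [NormedAddCommGroup W₁] [NormedSpace ℂ W₁] [NormedAddCommGroup W₂] [NormedSpace ℂ W₂]
    {p : X → V} {f : X → (W₁ →L[ℂ] W₂)} {g : X → (W →L[ℂ] W₁)}
    (hf : HolAt p f x) (hg : HolAt p g x) : HolAt p (fun y => (f y).comp (g y)) x := by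
  obtain ⟨F, hF1, hF2⟩ := hf
  obtain ⟨G, hG1, hG2⟩ := hg
  refine ⟨fun w => (F w).comp (G w), ?_, ?_⟩
  · filter_upwards [hF1, hG1] with w h1 h2
    exact h1.clm_comp h2
  · filter_upwards [hF2, hG2] with y h1 h2
    simp only [Function.comp_apply] at h1 h2 ⊢
    rw [h1, h2]

lemma HolAt.prod {V : Type} [NormedAddCommGroup V] [NormedSpace ℂ V] {p : X → V} {ι : Type}
    (s : Finset ι) {f : ι → X → ℂ} (hf : ∀ i ∈ s, HolAt p (f i) x) :
    HolAt p (fun y => ∏ i ∈ s, f i y) x := by
  classical
  induction s using Finset.induction_on with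
  | empty => simpa using HolAt.const p (1 : ℂ) x
  | insert a s ha ih =>
    simp only [Finset.prod_insert ha]
    exact (hf a (Finset.mem_insert_self a s)).mul' (ih fun i hi => hf i (Finset.mem_insert_of_mem hi))

lemma HolAt.sum' {V : Type} [NormedAddCommGroup V] [NormedSpace ℂ V] {p : X → V} {ι : Type}
    (s : Finset ι) {f : ι → X → W} (hf : ∀ i ∈ s, HolAt p (f i) x) :
    HolAt p (fun y => ∑ i ∈ s, f i y) x := by
  classical
  have hadd : ∀ {f g : X → W}, HolAt p f x → HolAt p g x → HolAt p (fun y => f y + g y) x := by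
    rintro f F ⟨g, hg1, hg2⟩ ⟨G, hG1, hG2⟩
    refine ⟨fun z => g z + G z, ?_, ?_⟩
    · filter_upwards [hg1, hG1] with z h1 h2
      exact h1.add h2
    · filter_upwards [hg2, hG2] with z h1 h2
      simp [h1, h2]
  induction s using Finset.induction_on with
  | empty => simpa using HolAt.const p (0 : W) x
  | insert a s ha ih =>
    simp only [Finset.sum_insert ha]
    exact hadd (hf a (Finset.mem_insert_self a s)) (ih fun i hi => hf i (Finset.mem_insert_of_mem hi))

lemma HolAt.det {V : Type} [NormedAddCommGroup V] [NormedSpace ℂ V] {p : X → V} {n : ℕ}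
    {f : X → Matrix (Fin n) (Fin n) ℂ} (hf : ∀ i j, HolAt p (fun y => f y i j) x) :
    HolAt p (fun y => (f y).det) x := by
  simp only [Matrix.det_apply]
  refine HolAt.sum' (W := ℂ) (p := p) _ fun σ _ => ?_
  exact (HolAt.prod _ fun i _ => hf _ _).comp_clm
    ((Equiv.Perm.sign σ : ℤ) • ContinuousLinearMap.id ℂ ℂ)

lemma HasRD.unique_of_map {V : Type} [NormedAddCommGroup V] [NormedSpace ℂ V] {p : X → V}
    (hp : map p (𝓝 x) = 𝓝 (p x)) {F : X → W} {L L' : V →L[ℂ] W}
    (h : HasRD p F L x) (h' : HasRD p F L' x) : L = L' := by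
  obtain ⟨g, hg1, hg2⟩ := h
  obtain ⟨g', hg1', hg2'⟩ := h'
  have h1 : g ∘ p =ᶠ[𝓝 x] g' ∘ p := hg2.symm.trans hg2'
  have h2 : g =ᶠ[𝓝 (p x)] g' := by
    rw [← hp]
    exact h1
  exact hg1.unique (hg1'.congr_of_eventuallyEq h2)

lemma HasRD.clm {V : Type} [NormedAddCommGroup V] [NormedSpace ℂ V] {W' : Type}
    [NormedAddCommGroup W'] [NormedSpace ℂ W'] {p : X → V} {F : X → W} {L : V →L[ℂ] W}
    (h : HasRD p F L x) (T : W →L[ℂ] W') : HasRD p (fun y => T (F y)) (T.comp L) x := by
  obtain ⟨g, hg1, hg2⟩ := h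
  refine ⟨fun w => T (g w), T.hasFDerivAt.comp _ hg1, ?_⟩
  filter_upwards [hg2] with y hy
  simp [hy]

end basic

section dom

variable {n N : ℕ} (M : LM n N)

/-- The coordinates `z_I`. -/
def LM.zI (I : Fin n → Fin N) (x : M) : Cn n := zc M.z I x

/-- The set where `z_I` are local coordinates. -/
def LM.E (I : Fin n → Fin N) : Set M := {x | Et M.z I x}

lemma LM.isOpen_E (I : Fin n → Fin N) : IsOpen (M.E I) := isOpen_et M.z I

/-- The étale domain of the points where `z_I` are local coordinates. -/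
def LM.dom (I : Fin n → Fin N) : Dom n where
  carrier := {x : M // x ∈ M.E I}
  π x := M.zI I x.1
  hπ := by
    have hval : IsLocalHomeomorph (Subtype.val : {x : M // x ∈ M.E I} → M) :=
      (M.isOpen_E I).isOpenEmbedding_subtypeVal.isLocalHomeomorph
    rw [isLocalHomeomorph_iff_isOpenEmbedding_restrict] at *
    intro x
    obtain ⟨e, hx, he, hd⟩ := x.2
    refine ⟨Subtype.val ⁻¹' e.source, (e.open_source.preimage continuous_subtype_val).mem_nhds hx, ?_⟩
    have h1 : Topology.IsOpenEmbedding (e.source.restrict e) := e.isOpenEmbedding_restrict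
    let f : (Subtype.val ⁻¹' e.source : Set {x : M // x ∈ M.E I}) → e.source := fun y => ⟨y.1.1, y.2⟩
    have h2 : Topology.IsOpenEmbedding f := by
      have h3 : Topology.IsOpenEmbedding
          (fun y : (Subtype.val ⁻¹' e.source : Set {x : M // x ∈ M.E I}) => (y.1.1 : M)) :=
        (M.isOpen_E I).isOpenEmbedding_subtypeVal.comp
          (e.open_source.preimage continuous_subtype_val).isOpenEmbedding_subtypeVal
      exact Topology.IsOpenEmbedding.of_comp (f := f) (g := (Subtype.val : e.source → M))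
        (e.open_source.isOpenEmbedding_subtypeVal) h3
    have h4 := h1.comp h2
    convert h4 using 1
    funext y
    exact (he y.1.1 y.2).symm

/-- The inclusion of `M.dom I`. -/
def LM.inc (I : Fin n → Fin N) (x : M.dom I) : M := x.1

end dom

end Pool.Agent.Lib.MP_55bc5f_an
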