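import Mathlib
import Pool.Agent.Lib.MP_55bc5f_an.Full.Et

/-!
# The derivative of the immersion in étale coordinates, Jacobians
-/

set_option autoImplicit false
set_option linter.unusedSectionVars false

open scoped Manifold ContDiff Topology ComplexConjugate
open Set Filter Metric

namespace Pool.Agent.Lib.MP_55bc5f_an

variable {n N : ℕ} (M : LM n N)

/-- The derivative of `z` with respect to the coordinates `z_I`. -/
noncomputable def LM.A (I : Fin n → Fin N) (x : M) : Cn n →L[ℂ] Cn N :=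
  open Classical in if h : ∃ L, HasRD (M.zI I) M.z L x then h.choose else 0

/-- The Jacobian determinants `∂z_K / ∂z_I`. -/
noncomputable def LM.GJ (I K : Fin n → Fin N) (x : M) : ℂ :=
  Matrix.det (Matrix.of fun a b => M.A I x (Pi.single b 1) (K a))

/-- The sum of the squares of all the Jacobian determinants. -/
noncomputable def LM.gs (I : Fin n → Fin N) (x : M) : ℝ := ∑ K, ‖M.GJ I K x‖ ^ 2

variable {M} {I I' K : Fin n → Fin N} {x : M}

lemma Et.hasRD_A (h : Et M.z I x) : HasRD (M.zI I) M.z (M.A I x) x := by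
  have h1 : ∃ L, HasRD (M.zI I) M.z L x := by
    obtain ⟨g, hg1, hg2⟩ := h.holAt_z
    exact ⟨_, g, hg1.self_of_nhds.hasFDerivAt, hg2⟩
  unfold LM.A
  rw [dif_pos h1]
  exact h1.choose_spec

lemma Et.A_unique (h : Et M.z I x) {L : Cn n →L[ℂ] Cn N} (hL : HasRD (M.zI I) M.z L x) :
    M.A I x = L := h.hasRD_A.unique_of_map h.map_nhds hL

/-- The entries of `A` in the directions `I`. -/
lemma Et.A_apply (h : Et M.z I x) (v : Cn n) (a : Fin n) : M.A I x v (I a) = v a := by
  have h1 : HasRD (M.zI I) (fun y => prI I (M.z y)) ((prI I).comp (M.A I x)) x := h.hasRD_A.clm _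
  have h2 : HasRD (M.zI I) (fun y => prI I (M.z y)) (ContinuousLinearMap.id ℂ (Cn n)) x :=
    ⟨fun w => w, hasFDerivAt_id _, EventuallyEq.refl _ _⟩
  have h3 := h1.unique_of_map h.map_nhds h2
  have h4 := congrArg (fun L : Cn n →L[ℂ] Cn n => L v a) h3
  exact h4

lemma Et.prI_A (h : Et M.z I x) (v : Cn n) : prI I (M.A I x v) = v := by
  funext a; exact h.A_apply v a

/-- A map which has a derivative in the coordinates `z_I'` has one in the coordinates `z_I`. -/
lemma HasRD.change {W : Type} [NormedAddCommGroup W] [NormedSpace ℂ W] (h : Et M.z I x)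
    {F : M → W} {L : Cn n →L[ℂ] W} (hF : HasRD (M.zI I') F L x) :
    HasRD (M.zI I) F (L.comp ((prI I').comp (M.A I x))) x := by
  obtain ⟨g, hg1, hg2⟩ := hF
  obtain ⟨Z, hZ1, hZ2⟩ := h.hasRD_A
  have h0 : M.z x = Z (M.zI I x) := hZ2.self_of_nhds
  have h1 : M.zI I' x = prI I' (Z (M.zI I x)) := by rw [← h0]; rfl
  refine ⟨fun w => g (prI I' (Z w)), ?_, ?_⟩
  · rw [h1] at hg1
    exact hg1.comp (M.zI I x) ((prI I').hasFDerivAt.comp (M.zI I x) hZ1)
  · filter_upwards [hg2, hZ2] with y h2 h3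
    simp only [Function.comp_apply] at h2 h3 ⊢
    rw [h2, ← h3]
    rfl

/-- The tangent vectors do not depend on the coordinates. -/
lemma A_change (h : Et M.z I x) (h' : Et M.z I' x) (v : Cn n) :
    M.A I x v = M.A I' x (prI I' (M.A I x v)) := by
  have h1 := HasRD.change h h'.hasRD_A
  have h2 := h.A_unique h1
  have h3 := congrArg (fun L : Cn n →L[ℂ] Cn N => L v) h2
  exact h3

/-- The derivative is given by composition with `A`. -/
lemma HasRD.change_A {W : Type} [NormedAddCommGroup W] [NormedSpace ℂ W] (h : Et M.z I x)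
    (h' : Et M.z I' x) {F : M → W} {L : Cn N →L[ℂ] W}
    (hF : HasRD (M.zI I') F (L.comp (M.A I' x)) x) : HasRD (M.zI I) F (L.comp (M.A I x)) x := by
  have h1 := HasRD.change h hF
  convert h1 using 1
  ext v
  simp only [ContinuousLinearMap.comp_apply]
  rw [← A_change h h']

lemma holAt_dom {W : Type} [NormedAddCommGroup W] [NormedSpace ℂ W] {F : M → W} {x : M.dom I} :
    HolAt (M.dom I).π (fun y => F (M.inc I y)) x ↔ HolAt M.z F (M.inc I x) := by
  have hx : Et M.z I (M.inc I x) := x.2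
  rw [holAt_iff hx]
  have hmap : map (M.inc I) (𝓝 x) = 𝓝 (M.inc I x) :=
    (M.isOpen_E I).isOpenEmbedding_subtypeVal.map_nhds_eq x
  constructor
  · rintro ⟨g, hg1, hg2⟩
    refine ⟨g, hg1, ?_⟩
    change ∀ᶠ y in 𝓝 (M.inc I x), F y = g (zc M.z I y)
    rw [← hmap]
    exact hg2
  · rintro ⟨g, hg1, hg2⟩
    refine ⟨g, hg1, ?_⟩
    have : ∀ᶠ y in map (M.inc I) (𝓝 x), F y = g (zc M.z I y) := by rw [hmap]; exact hg2
    exact this

lemma hasRD_dom {W : Type} [NormedAddCommGroup W] [NormedSpace ℂ W] {F : M → W} {x : M.dom I}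
    {L : Cn n →L[ℂ] W} :
    HasRD (M.dom I).π (fun y => F (M.inc I y)) L x ↔ HasRD (M.zI I) F L (M.inc I x) := by
  have hmap : map (M.inc I) (𝓝 x) = 𝓝 (M.inc I x) :=
    (M.isOpen_E I).isOpenEmbedding_subtypeVal.map_nhds_eq x
  constructor
  · rintro ⟨g, hg1, hg2⟩
    refine ⟨g, hg1, ?_⟩
    change ∀ᶠ y in 𝓝 (M.inc I x), F y = g (M.zI I y)
    rw [← hmap]
    exact hg2
  · rintro ⟨g, hg1, hg2⟩
    refine ⟨g, hg1, ?_⟩
    have : ∀ᶠ y in map (M.inc I) (𝓝 x), F y = g (M.zI I y) := by rw [hmap]; exact hg2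
    exact this

lemma rd_dom_z (x : M.dom I) :
    rd (M.dom I).hπ (fun y => M.z (M.inc I y)) x = M.A I (M.inc I x) :=
  HasRD.rd_eq _ (hasRD_dom.2 (Et.hasRD_A (show Et M.z I (M.inc I x) from x.2)))

lemma Et.holAt_A (h : Et M.z I x) : HolAt M.z (M.A I) x := by
  have h1 : HolAt (M.dom I).π (fun y => M.z (M.inc I y)) (⟨x, h⟩ : M.dom I) :=
    holAt_dom.2 (holAt_self M.z x)
  have h2 : HolAt (M.dom I).π (fun y => M.A I (M.inc I y)) (⟨x, h⟩ : M.dom I) := by
    apply (h1.rd (M.dom I).hπ).congr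
    exact Eventually.of_forall fun y => rd_dom_z y
  exact holAt_dom.1 h2

lemma Et.holAt_GJ (h : Et M.z I x) (K : Fin n → Fin N) : HolAt M.z (M.GJ I K) x := by
  apply HolAt.det (p := M.z) (f := fun y => Matrix.of fun a b => M.A I y (Pi.single b 1) (K a))
  intro a b
  exact ((h.holAt_A).comp_clm (ContinuousLinearMap.apply ℂ (Cn N) (Pi.single b 1 : Cn n))).apply (K a)

lemma Et.GJ_self (h : Et M.z I x) : M.GJ I I x = 1 := by
  unfold LM.GJ
  have : (Matrix.of fun a b => M.A I x (Pi.single b 1) (I a)) = (1 : Matrix (Fin n) (Fin n) ℂ) := by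
    ext a b
    simp only [Matrix.of_apply, h.A_apply, Matrix.one_apply, Pi.single_apply]
  rw [this, Matrix.det_one]

/-- Chain rule for the Jacobian matrices. -/
lemma GJ_cocycle (h : Et M.z I x) (h' : Et M.z I' x) (K : Fin n → Fin N) :
    M.GJ I K x = M.GJ I' K x * M.GJ I I' x := by
  unfold LM.GJ
  rw [← Matrix.det_mul]
  congr 1
  ext a b
  simp only [Matrix.mul_apply, Matrix.of_apply]
  have h1 : prI I' (M.A I x (Pi.single b 1)) =
      ∑ c, M.A I x (Pi.single b 1) (I' c) • (Pi.single c 1 : Cn n) := by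
    funext d
    simp [Finset.sum_apply, Pi.single_apply]
  have h2 : M.A I x (Pi.single b 1) =
      ∑ c, M.A I x (Pi.single b 1) (I' c) • M.A I' x (Pi.single c 1) := by
    have h3 := A_change h h' (Pi.single b 1)
    rw [h1] at h3
    simpa only [map_sum, map_smul] using h3
  have h4 := congrFun h2 (K a)
  rw [h4]
  simp only [Finset.sum_apply, Pi.smul_apply, smul_eq_mul]
  exact Finset.sum_congr rfl fun c _ => mul_comm _ _

lemma GJ_inv (h : Et M.z I x) (h' : Et M.z I' x) : M.GJ I' I x * M.GJ I I' x = 1 := by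
  rw [← GJ_cocycle h h', h.GJ_self]

lemma GJ_ne (h : Et M.z I x) (h' : Et M.z I' x) : M.GJ I' I x ≠ 0 := by
  intro h0
  have := GJ_inv h h'
  rw [h0, zero_mul] at this
  exact zero_ne_one this

/-- The inverse function theorem. -/
lemma et_mk {X : Type} [TopologicalSpace X] {z : X → Cn N} {e : OpenPartialHomeomorph X (Cn n)}
    {x : X} (hx : x ∈ e.source) (hd : DifferentiableOn ℂ (fun w => z (e.symm w)) e.target)
    {I : Fin n → Fin N}
    (h0 : LinearMap.det (((prI I).comp (fderiv ℂ (fun w => z (e.symm w)) (e x)) :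
      Cn n →L[ℂ] Cn n) : Cn n →ₗ[ℂ] Cn n) ≠ 0) : Et z I x := by
  let Z : Cn n → Cn N := fun w => z (e.symm w)
  have hex : e x ∈ e.target := e.map_source hx
  have hZd : DifferentiableOn ℂ Z e.target := hd
  have hAn : AnalyticOnNhd ℂ Z e.target := Osgood.analyticOnNhd e.open_target hZd
  let f : Cn n → Cn n := fun w => prI I (Z w)
  have hfA : AnalyticAt ℂ f (e x) := ((prI I).analyticAt _).comp (hAn _ hex)
  have hZ' : HasFDerivAt Z (fderiv ℂ Z (e x)) (e x) :=
    ((hZd _ hex).differentiableAt (e.open_target.mem_nhds hex)).hasFDerivAt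
  have hf' : HasFDerivAt f ((prI I).comp (fderiv ℂ Z (e x))) (e x) := (prI I).hasFDerivAt.comp _ hZ'
  let L : Cn n →L[ℂ] Cn n := (prI I).comp (fderiv ℂ Z (e x))
  have hunit : IsUnit (LinearMap.det (L : Cn n →ₗ[ℂ] Cn n)) := isUnit_iff_ne_zero.2 h0
  let Le : Cn n ≃ₗ[ℂ] Cn n := LinearMap.equivOfDetNeZero (L : Cn n →ₗ[ℂ] Cn n) hunit.ne_zero
  let Lc : Cn n ≃L[ℂ] Cn n := Le.toContinuousLinearEquiv
  have hLc : (Lc : Cn n →L[ℂ] Cn n) = L := by ext v; rfl
  have hcd : ContDiffAt ℂ ω f (e x) := hfA.contDiffAt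
  have hf'' : HasFDerivAt f (Lc : Cn n →L[ℂ] Cn n) (e x) := by rw [hLc]; exact hf'
  let φ : OpenPartialHomeomorph (Cn n) (Cn n) :=
    hcd.toOpenPartialHomeomorph f hf'' (by simp)
  have hφf : ∀ w, φ w = f w := fun w => by
    have := hcd.toOpenPartialHomeomorph_coe (f := f) hf'' (by simp)
    exact congrFun this w
  have hφx : e x ∈ φ.source := hcd.mem_toOpenPartialHomeomorph_source hf'' (by simp)
  have hinv : ContDiffAt ℂ ω φ.symm (f (e x)) := hcd.to_localInverse hf'' (by simp)
  have hinv' : ∀ᶠ w in 𝓝 (f (e x)), DifferentiableAt ℂ φ.symm w := by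
    have h1 : ContDiffAt ℂ 1 φ.symm (f (e x)) := hinv.of_le (by simp)
    have h2 := h1.eventually (by simp)
    filter_upwards [h2] with w hw
    exact hw.differentiableAt (by simp)
  obtain ⟨O, hO1, hO2, hO3⟩ := _root_.eventually_nhds_iff.1 hinv'
  -- the new chart
  let ψ₀ := e.trans φ
  have hψx : x ∈ ψ₀.source := by
    rw [OpenPartialHomeomorph.trans_source]
    exact ⟨hx, hφx⟩
  have hψ : ∀ y ∈ ψ₀.source, ψ₀ y = fun a => z y (I a) := by
    intro y hy
    rw [OpenPartialHomeomorph.trans_source] at hy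
    change φ (e y) = _
    rw [hφf]
    funext a
    change z (e.symm (e y)) (I a) = _
    rw [e.left_inv hy.1]
  let ψ := ψ₀.restrOpen (ψ₀.source ∩ ψ₀ ⁻¹' O) (ψ₀.isOpen_inter_preimage hO2)
  have hsrc : ψ.source ⊆ ψ₀.source := by
    rw [OpenPartialHomeomorph.restrOpen_source]
    exact fun y hy => hy.1
  refine ⟨ψ, ?_, ?_, ?_⟩
  · rw [OpenPartialHomeomorph.restrOpen_source]
    refine ⟨hψx, hψx, ?_⟩
    change φ (e x) ∈ O
    rw [hφf]; exact hO3
  · intro y hy
    exact hψ y (hsrc hy)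
  · intro w hw
    have h1 : ψ.symm w ∈ ψ.source := ψ.map_target hw
    rw [OpenPartialHomeomorph.restrOpen_source] at h1
    have h2 : ψ (ψ.symm w) = w := ψ.right_inv hw
    have h3 : w ∈ O := by
      have := h1.2.2
      change ψ₀ (ψ.symm w) ∈ O at this
      have h4 : ψ₀ (ψ.symm w) = w := h2
      rwa [h4] at this
    have h5 : ψ.symm w ∈ ψ₀.source := h1.1
    have hw0 : w ∈ ψ₀.target := by
      have := ψ₀.map_source h5
      have h4 : ψ₀ (ψ.symm w) = w := h2
      rwa [h4] at this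
    have hwφ : w ∈ φ.target ∧ φ.symm w ∈ e.target := by
      rw [OpenPartialHomeomorph.trans_target] at hw0
      exact hw0
    apply DifferentiableAt.differentiableWithinAt
    have h6 : (fun w => z (ψ.symm w)) = fun w => Z (φ.symm w) := by
      funext w; rfl
    rw [h6]
    exact ((hZd _ hwφ.2).differentiableAt (e.open_target.mem_nhds hwφ.2)).comp w (hO1 w h3)

/-- Where the Jacobian determinant does not vanish, `z_I` are local coordinates. -/
lemma et_of_GJ_ne (h' : Et M.z I' x) (h0 : M.GJ I' I x ≠ 0) : Et M.z I x := by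
  obtain ⟨e, hx, he, hd⟩ := h'
  have h' : Et M.z I' x := ⟨e, hx, he, hd⟩
  apply et_mk hx hd
  have hex : e x ∈ e.target := e.map_source hx
  have h2 : HasRD (M.zI I') M.z (fderiv ℂ (fun w => M.z (e.symm w)) (e x)) x := by
    refine ⟨fun w => M.z (e.symm w), ?_, ?_⟩
    · have h3 : M.zI I' x = e x := (he x hx).symm
      rw [h3]
      exact ((hd _ hex).differentiableAt (e.open_target.mem_nhds hex)).hasFDerivAt
    · filter_upwards [e.open_source.mem_nhds hx] with y hy
      have h3 : e y = M.zI I' y := he y hy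
      simp only [Function.comp_apply, ← h3, e.left_inv hy]
  rw [← h'.A_unique h2]
  have hdet : LinearMap.det (((prI I).comp (M.A I' x) : Cn n →L[ℂ] Cn n) : Cn n →ₗ[ℂ] Cn n) =
      M.GJ I' I x := by
    rw [← LinearMap.det_toMatrix']
    unfold LM.GJ
    congr 1
  rw [hdet]
  exact h0

lemma et_iff (h' : Et M.z I' x) : Et M.z I x ↔ M.GJ I' I x ≠ 0 :=
  ⟨fun h => GJ_ne h h', et_of_GJ_ne h'⟩

lemma Et.one_le_gs (h : Et M.z I x) : 1 ≤ M.gs I x := by
  unfold LM.gs
  have h1 : ‖M.GJ I I x‖ ^ 2 = 1 := by rw [h.GJ_self]; simp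
  rw [← h1]
  exact Finset.single_le_sum (f := fun K => ‖M.GJ I K x‖ ^ 2) (fun K _ => by positivity)
    (Finset.mem_univ I)

lemma gs_change (h : Et M.z I x) (h' : Et M.z I' x) :
    M.gs I x * ‖M.GJ I' I x‖ ^ 2 = M.gs I' x := by
  unfold LM.gs
  rw [Finset.sum_mul]
  apply Finset.sum_congr rfl
  intro K _
  rw [GJ_cocycle h h' K, norm_mul, mul_pow, mul_assoc, ← mul_pow ‖M.GJ I I' x‖, ← norm_mul]
  have := GJ_inv h h'
  rw [mul_comm] at this
  rw [this]
  simp

/-! ### Local homeomorphisms -/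

section transport

variable {M E : LM n N} {p : M → E} (hp : IsLocalHomeomorph p) (hz : ∀ x, M.z x = E.z (p x))

include hp hz

lemma et_transport (I : Fin n → Fin N) (x : M) : Et M.z I x ↔ Et E.z I (p x) := by
  obtain ⟨f, hf, hfp⟩ := hp x
  subst hfp
  constructor
  · rintro ⟨e, hx, he, hd⟩
    refine ⟨f.symm.trans e, ?_, ?_, ?_⟩
    · rw [OpenPartialHomeomorph.trans_source]
      refine ⟨f.map_source hf, ?_⟩
      change f.symm (f x) ∈ e.source
      rw [f.left_inv hf]; exact hx
    · intro y hy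
      rw [OpenPartialHomeomorph.trans_source] at hy
      change e (f.symm y) = _
      rw [he _ hy.2]
      funext a
      rw [hz, f.right_inv hy.1]
    · intro w hw
      rw [OpenPartialHomeomorph.trans_target] at hw
      have h1 : ∀ w, E.z ((f.symm.trans e).symm w) = M.z (e.symm w) := fun w => by
        rw [hz]; rfl
      simp only [h1]
      exact (hd w hw.1).mono (by rw [OpenPartialHomeomorph.trans_target]; exact inter_subset_left)
  · rintro ⟨e, hx, he, hd⟩
    refine ⟨f.trans e, ?_, ?_, ?_⟩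
    · rw [OpenPartialHomeomorph.trans_source]
      exact ⟨hf, hx⟩
    · intro y hy
      rw [OpenPartialHomeomorph.trans_source] at hy
      change e (f y) = _
      rw [he _ hy.2]
      funext a
      rw [hz]
    · intro w hw
      have hw' := hw
      rw [OpenPartialHomeomorph.trans_target] at hw
      have h1 : ∀ w ∈ (f.trans e).target, M.z ((f.trans e).symm w) = E.z (e.symm w) := by
        intro w hw
        rw [OpenPartialHomeomorph.trans_target] at hw
        rw [hz]
        change E.z (f (f.symm (e.symm w))) = _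
        rw [f.right_inv hw.2]
      apply DifferentiableWithinAt.congr _ h1 (h1 w hw')
      exact (hd w hw.1).mono (by rw [OpenPartialHomeomorph.trans_target]; exact inter_subset_left)

lemma A_transport {I : Fin n → Fin N} {x : M} (h : Et M.z I x) : M.A I x = E.A I (p x) := by
  have h' := (et_transport hp hz I x).1 h
  apply h.A_unique
  obtain ⟨g, hg1, hg2⟩ := h'.hasRD_A
  have h1 : E.zI I (p x) = M.zI I x := by
    funext a
    change E.z (p x) (I a) = M.z x (I a)
    rw [hz]
  rw [h1] at hg1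
  refine ⟨g, hg1, ?_⟩
  filter_upwards [hp.continuous.continuousAt.eventually hg2] with y hy
  simp only [Function.comp_apply] at hy ⊢
  rw [hz, hy]
  congr 1
  funext a
  change E.z (p y) (I a) = M.z y (I a)
  rw [hz]

lemma GJ_transport {I : Fin n → Fin N} {x : M} (h : Et M.z I x) (K : Fin n → Fin N) :
    M.GJ I K x = E.GJ I K (p x) := by
  unfold LM.GJ
  rw [A_transport hp hz h]

lemma gs_transport {I : Fin n → Fin N} {x : M} (h : Et M.z I x) : M.gs I x = E.gs I (p x) := by
  unfold LM.gs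
  simp only [GJ_transport hp hz h]

lemma holAt_transport {W : Type} [NormedAddCommGroup W] [NormedSpace ℂ W] {F : E → W} {x : M}
    (h : HolAt E.z F (p x)) : HolAt M.z (fun y => F (p y)) x :=
  HolAt.comp (V := Cn N) hp.continuous (fun x => (hz x).symm) h

end transport

lemma et_comp {E : LM n N} {X : Type} [TopologicalSpace X] {p : X → E} (hp : IsLocalHomeomorph p)
    {I : Fin n → Fin N} {x : X} (h : Et E.z I (p x)) : Et (fun y => E.z (p y)) I x := by
  obtain ⟨f, hf, hfp⟩ := hp x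
  subst hfp
  obtain ⟨e, hx, he, hd⟩ := h
  refine ⟨f.trans e, ?_, ?_, ?_⟩
  · rw [OpenPartialHomeomorph.trans_source]
    exact ⟨hf, hx⟩
  · intro y hy
    rw [OpenPartialHomeomorph.trans_source] at hy
    change e (f y) = _
    rw [he _ hy.2]
  · intro w hw
    have hw' := hw
    rw [OpenPartialHomeomorph.trans_target] at hw
    have h1 : ∀ w ∈ (f.trans e).target, E.z (f ((f.trans e).symm w)) = E.z (e.symm w) := by
      intro w hw
      rw [OpenPartialHomeomorph.trans_target] at hw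
      change E.z (f (f.symm (e.symm w))) = _
      rw [f.right_inv hw.2]
    apply DifferentiableWithinAt.congr _ h1 (h1 w hw')
    exact (hd w hw.1).mono (by rw [OpenPartialHomeomorph.trans_target]; exact inter_subset_left)

/-- The structure on a space with a local homeomorphism to `E`. -/
def LM.pull (E : LM n N) {X : Type} [TopologicalSpace X] [T2Space X] [SecondCountableTopology X]
    {p : X → E} (hp : IsLocalHomeomorph p) : LM n N where
  carrier := X
  z x := E.z (p x)
  cont := E.cont.comp hp.continuous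
  et x := by
    obtain ⟨I, hI⟩ := E.et (p x)
    exact ⟨I, et_comp hp hI⟩

lemma LM.locallyConnected (M : LM n N) : LocallyConnectedSpace M := by
  let c : ChartedSpace (Cn n) M :=
    { atlas := {e | ∃ x : M, e = (M.et x).choose_spec.choose}
      chartAt := fun x => (M.et x).choose_spec.choose
      mem_chart_source := fun x => (M.et x).choose_spec.choose_spec.1
      chart_mem_atlas := fun x => ⟨x, rfl⟩ }
  exact ChartedSpace.locallyConnectedSpace (Cn n) M

/-- Holomorphic functions on `U` extend to `M`. -/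
def ExtU (M : LM n N) (U : Set M) : Prop :=
  ∀ h : M → ℂ, (∀ x ∈ U, HolAt M.z h x) → ∃ H : M → ℂ, (∀ x, HolAt M.z H x) ∧ ∀ x ∈ U, H x = h x

/-- The expression of a differential form in the coordinates `z_I`. -/
noncomputable def LM.fr (M : LM n N) (I : Fin n → Fin N) (θ : M → (Cn N →L[ℂ] ℂ)) (x : M) :
    Cn n →L[ℂ] ℂ := (θ x).comp (M.A I x)

/-- The differential form `θ` is holomorphic at `x`. -/
def HolForm (M : LM n N) (θ : M → (Cn N →L[ℂ] ℂ)) (x : M) : Prop :=
  ∀ I, Et M.z I x → HolAt M.z (M.fr I θ) x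

/-- Solutions of the system given by three differential forms. -/
def SolE (M : LM n N) (θ₁ θ₂ θ₃ : M → (Cn N →L[ℂ] ℂ)) (w : M → CAff) (x : M) : Prop :=
  ∀ I, Et M.z I x → SolAt (M.zI I) (fun y => (M.fr I θ₁ y, M.fr I θ₂ y, M.fr I θ₃ y)) w x

/-- The integrability conditions. -/
def ClosedE (M : LM n N) (θ₁ θ₂ θ₃ : M → (Cn N →L[ℂ] ℂ)) (x : M) : Prop :=
  ∀ (I : Fin n → Fin N) (h : x ∈ M.E I), ClosedAt (M.fr I θ₁ x) (M.fr I θ₂ x) (M.fr I θ₃ x)
    (rd (M.dom I).hπ (fun y => M.fr I θ₁ (M.inc I y)) (⟨x, h⟩ : {x : M // x ∈ M.E I}))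
    (rd (M.dom I).hπ (fun y => M.fr I θ₂ (M.inc I y)) (⟨x, h⟩ : {x : M // x ∈ M.E I}))
    (rd (M.dom I).hπ (fun y => M.fr I θ₃ (M.inc I y)) (⟨x, h⟩ : {x : M // x ∈ M.E I}))

end Pool.Agent.Lib.MP_55bc5f_an
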