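import Mathlib
import Pool.Agent.Lib.MP_55bc5f_an.Full.Calc

/-!
# Hörmander's `L²` existence theorem on domains étale over `ℂⁿ`: statements and paper proofs
-/

set_option autoImplicit false

open scoped Manifold ContDiff Topology ComplexConjugate
open Set Filter Metric MeasureTheory

namespace Pool.Agent.Lib.MP_55bc5f_an

/-- `μ` is the pull back of the Lebesgue measure of `ℂⁿ`. -/
def Pull {n : ℕ} (X : Dom n) (μ : Measure X) : Prop :=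
  ∀ U : Set X, IsOpen U → InjOn X.π U → ∀ A ⊆ U, MeasurableSet A → μ A = volume (X.π '' A)

/-- Smooth functions with compact support. -/
def CS {n : ℕ} (X : Dom n) {W : Type} [NormedAddCommGroup W] [NormedSpace ℝ W] (u : X → W) : Prop :=
  Sm X u ∧ HasCompactSupport u

/-- The distribution `T* f` is the function `v` (weights `φ₂`, `φ₁`). -/
def WT {n : ℕ} (X : Dom n) (μ : Measure X) (φ₁ φ₂ : X → ℝ) (f : Fin n → X → ℂ) (v : X → ℂ) : Prop :=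
  ∀ ξ : X → ℂ, CS X ξ →
    ∫ x, (∑ j, f j x * wd X j ξ x) * Real.exp (-φ₂ x) ∂μ = ∫ x, v x * ξ x * Real.exp (-φ₁ x) ∂μ

/-- `f` is `∂̄`-closed in the weak sense. -/
def WC {n : ℕ} (X : Dom n) (μ : Measure X) (f : Fin n → X → ℂ) : Prop :=
  ∀ ξ : X → ℂ, CS X ξ → ∀ j k, ∫ x, f k x * wdb X j ξ x ∂μ = ∫ x, f j x * wdb X k ξ x ∂μ

/-- `‖∂ρ‖²`. -/
noncomputable def gsq {n : ℕ} (X : Dom n) (ρ : X → ℝ) (x : X) : ℝ :=
  ∑ j, ‖wd X j (fun y => (ρ y : ℂ)) x‖ ^ 2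

/-- **Meas.** PROOF. By second countability there are points `c_0, c_1, ...` such that the sets
`U_i = (ch X.hπ c_i).target` cover `X`. Let `A_i = U_i \ ⋃_{j<i} U_j` and
`μ = ∑_i (volume.map (ch c_i) restricted ...)`, concretely
`μ = Measure.sum fun i => ((volume.restrict (ch c_i).source).map (ch c_i)).restrict (A_i)`
(`ch c_i` is continuous on its open source, hence a.e. measurable for the restricted measure; or use
`Measure.comap` of the injective restrictions of `X.π`). For measurable `A ⊆ U`, `X.π` injective on `U`: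
`μ A = ∑_i volume (X.π '' (A ∩ A_i)) = volume (X.π '' A)` (disjoint union, `X.π` injective on `A`; images
of Borel sets under injective continuous maps of open subsets are Borel:
`MeasurableSet.image_of_continuousOn_injOn`, or pull back by the local inverse). -/
def S_Meas : Prop := ∀ (n : ℕ) (X : Dom n), ∃ μ : Measure X, Pull X μ

/-- **PullFacts.** PROOF. The last two statements: for measurable `A ⊆ ch x '' S`,
`μ A = volume (X.π '' A) = volume ((ch x) ⁻¹' A ∩ S)`, so `μ` restricted to `ch x '' S` is the image of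
`volume` restricted to `S` under the homeomorphism `ch x : S → ch x '' S` (a measurable embedding of the
subtype). Compact sets are covered by finitely many images of balls. -/
def S_PullFacts : Prop := ∀ (n : ℕ) (X : Dom n) (μ : Measure X) (_ : Pull X μ),
  IsFiniteMeasureOnCompacts μ ∧ SigmaFinite μ ∧ (∀ U : Set X, IsOpen U → U.Nonempty → μ U ≠ 0) ∧
  (∀ (x : X) (S : Set (Cn n)), MeasurableSet S → S ⊆ (ch X.hπ x).source →
    ∀ (F : Type) [NormedAddCommGroup F] [NormedSpace ℝ F] (f : X → F),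
      (∫ y in ch X.hπ x '' S, f y ∂μ = ∫ z in S, f (ch X.hπ x z)) ∧
      (IntegrableOn f (ch X.hπ x '' S) μ ↔ IntegrableOn (fun z => f (ch X.hπ x z)) S)) ∧
  (∀ (x : X) (S : Set (Cn n)), MeasurableSet S → S ⊆ (ch X.hπ x).source → ∀ f : X → ENNReal,
      ∫⁻ y in ch X.hπ x '' S, f y ∂μ = ∫⁻ z in S, f (ch X.hπ x z)) ∧
  (∀ (x : X) (S : Set (Cn n)), MeasurableSet S → S ⊆ (ch X.hπ x).source → ∀ P : X → Prop,
      ((∀ᵐ y ∂(μ.restrict (ch X.hπ x '' S)), P y) ↔ ∀ᵐ z ∂(volume.restrict S), P (ch X.hπ x z)))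

/-- **PU.** Partitions of unity. PROOF. For `c ∈ K` choose a ball `B(X.π c, 3 r_c) ⊆ (ch c).source` with
`ch c '' B ⊆ N c` and the smooth bump `β_c = b_c ∘ X.π` on the image of the ball, `0` elsewhere (`b_c` a `ContDiffBump`
with radii `r_c`, `2 r_c`); it is smooth on `X` with compact support inside `ch c '' B` (the image of a
compact ball is compact, hence closed). Finitely many sets `{β_c > 1/2}` cover `K`. Then
`θ_i = β_i ∏_{j<i} (1 - β_j)` is not quite `1` in the sum; use instead bumps which are `1` on the balls of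
radius `r_c`, which cover `K`: `1 - ∑ θ_i = ∏ (1 - β_i) = 0` on the union of these balls. -/
def S_PU : Prop := ∀ (n : ℕ) (X : Dom n) (K : Set X), IsCompact K → ∀ (N : X → Set X),
  (∀ x, N x ∈ 𝓝 x) → ∃ (m : ℕ) (c : Fin m → X) (θ : Fin m → X → ℝ),
    (∀ i, CS X (θ i) ∧ tsupport (θ i) ⊆ (ch X.hπ (c i)).target ∩ N (c i) ∧
      ∀ x, 0 ≤ θ i x ∧ θ i x ≤ 1) ∧
    (∀ x, ∑ i, θ i x ≤ 1) ∧ ∃ U : Set X, IsOpen U ∧ K ⊆ U ∧ ∀ x ∈ U, ∑ i, θ i x = 1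

/-- **IBP.** PROOF. Partition of unity (`PU`, `K = tsupport u`): `u = ∑ θ_i u`, and each `θ_i u` has compact
support in `(ch c_i).target`; by `PullFacts` its integral of the derivative is
`∫ fderiv (F) z v dz` for the smooth compactly supported function `F = (θ_i u) ∘ ch c_i` on the source,
extended by `0` to `ℂⁿ`: zero by `integral_eq_zero_of_...` (e.g. `integral_bilinear_hasLineDerivAt_right_eq_neg_left_of_integrable`
or `integral_fderiv_eq_zero`-type lemmas with a cut-off function `1`). -/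
def S_IBP : Prop := ∀ (n : ℕ) (X : Dom n) (μ : Measure X) (_ : Pull X μ) (u : X → ℂ), CS X u →
  (∀ v : Cn n, ∫ x, dR X u x v ∂μ = 0) ∧ (∀ j, ∫ x, wd X j u x ∂μ = 0) ∧
  (∀ j, ∫ x, wdb X j u x ∂μ = 0)

/-- **LevSum.** PROOF. With `a_j = φ''(e_j, ·)` etc.: `w = ∑ (Re w_j) e_j + (Im w_j) i e_j`; the second derivative
`dR (dR φ) x` is symmetric (`ContDiffAt.isSymmSndFDerivAt`). Expand both sides. -/
def S_LevSum : Prop := ∀ (n : ℕ) (X : Dom n) (φ : X → ℝ), Sm X φ → ∀ (x : X) (w : Cn n),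
  (Lev X φ x w : ℂ) = ∑ j, ∑ k, wd X j (wdb X k (fun y => (φ y : ℂ))) x * w j * conj (w k)

/-- **LevComp.** PROOF. `(χ∘s)''(w,w) = χ'(s) s''(w,w) + χ''(s) s'(w)²`. Holomorphic: `u = Re` of a holomorphic function has
`u''(iw,iw) = -u''(w,w)`; for the sum of squares `|h|² = h h̄`:
`(|h|²)''(w,w) + (|h|²)''(iw,iw) = 4 |h'(w)|²` (write `h'(iw) = i h'(w)`, `h''(iw,iw) = -h''(w,w)`). Pluriharmonicity of `log|h|`:
locally `log|h| = Re log h`. -/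
def S_LevComp : Prop := ∀ (n : ℕ) (X : Dom n),
  (∀ (s : X → ℝ) (χ : ℝ → ℝ), Sm X s → ContDiff ℝ ∞ χ → ∀ x w,
    Lev X (fun y => χ (s y)) x w = deriv χ (s x) * Lev X s x w +
      deriv (deriv χ) (s x) * ((dR X s x w) ^ 2 + (dR X s x (Complex.I • w)) ^ 2) / 4) ∧
  (∀ (u v : X → ℝ), Sm X u → Sm X v → ∀ x w,
    Lev X (fun y => u y + v y) x w = Lev X u x w + Lev X v x w) ∧
  (∀ (u : X → ℝ) (c : ℝ), Sm X u → ∀ x w, Lev X (fun y => c * u y) x w = c * Lev X u x w) ∧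
  (∀ (h : X → ℂ), (∀ x, HolAt X.π h x) → ∀ x w,
    Lev X (fun y => ‖h y‖ ^ 2) x w = ‖rd X.hπ h x w‖ ^ 2) ∧
  (∀ (h : X → ℂ), (∀ x, HolAt X.π h x) → ∀ x, h x ≠ 0 → ∀ w,
    Lev X (fun y => Real.log (‖h y‖ ^ 2)) x w = 0)

/-- **Basic.** The basic inequality (Hörmander, Kohn, Morrey).

PROOF. `δ_j w = wd j w - w wd j φ = e^φ wd j (e^{-φ} w)`. By `IBP` for `wdb`, `wd` of products of compactly
supported functions: `∫ (δ_j u) conj v e^{-φ} = - ∫ u conj (wdb j v) e^{-φ}`. Commutator: `δ_j (wdb k u) - wdb k (δ_j u) =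
u wd j (wdb k φ)` (`wd`, `wdb` commute on smooth functions: symmetry of the second derivative). Hence
`∫ (δ_j f_j) conj (δ_k f_k) e^{-φ} = - ∫ (wdb k (δ_j f_j)) conj (f_k) e^{-φ}
= - ∫ (δ_j (wdb k f_j)) conj f_k e^{-φ} + ∫ f_j φ_{jk̄} conj f_k e^{-φ}
= ∫ (wdb k f_j) conj (wdb j f_k) e^{-φ} + ∫ φ_{jk̄} f_j conj f_k e^{-φ}`. Sum over `j, k`
and use `½ ∑ |a_jk - a_kj|² = ∑ |a_jk|² - Re ∑ a_jk conj a_kj` with `a_jk = wdb k f_j`: the difference of the two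
sides of the inequality is `∫ ∑ |wdb k f_j|² e^{-φ} ≥ 0`. (`LevSum` for the Levi form.) -/
def S_Basic : Prop := ∀ (n : ℕ) (X : Dom n) (μ : Measure X) (_ : Pull X μ) (φ : X → ℝ), Sm X φ →
  ∀ f : Fin n → X → ℂ, (∀ j, CS X (f j)) →
    ∫ x, Lev X φ x (fun j => f j x) * Real.exp (-φ x) ∂μ ≤
      ∫ x, ‖∑ j, (wd X j (f j) x - f j x * wd X j (fun y => (φ y : ℂ)) x)‖ ^ 2 *
        Real.exp (-φ x) ∂μ +
      (1 / 2) * ∫ x, (∑ j, ∑ k, ‖wdb X j (f k) x - wdb X k (f j) x‖ ^ 2) * Real.exp (-φ x) ∂μ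

/-- **AprSm.** The a priori estimate with three weights `φ - 2Ψ, φ - Ψ, φ` for smooth forms.

PROOF. `T* f = - e^{-Ψ} ∑ (wd j f_j - f_j wd j (φ - Ψ)) = - e^{-Ψ} (∑ δ_j f_j + ∑ f_j wd j Ψ)`. So
`|∑ δ_j f_j|² ≤ 2 e^{2Ψ} |T* f|² + 2 gsq Ψ |f|²` (Cauchy-Schwarz) and by `Basic`
`2 ∫ (gsq Ψ + e^Ψ) |f|² e^{-φ} ≤ ∫ Lev φ (f) e^{-φ} ≤ 2 ∫ |T* f|² e^{2Ψ-φ} + 2 ∫ gsq Ψ |f|² e^{-φ}
+ ½ ∫ ∑ |...|² e^{-φ}`. Divide by two. -/
def S_AprSm : Prop := ∀ (n : ℕ) (X : Dom n) (μ : Measure X) (_ : Pull X μ) (φ Ψ : X → ℝ),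
  Sm X φ → Sm X Ψ →
  (∀ x w, 2 * (gsq X Ψ x + Real.exp (Ψ x)) * nsq w ≤ Lev X φ x w) →
  ∀ f : Fin n → X → ℂ, (∀ j, CS X (f j)) →
    ∫ x, (∑ j, ‖f j x‖ ^ 2) * Real.exp (-(φ x - Ψ x)) ∂μ ≤
      ∫ x, ‖Real.exp (-Ψ x) * ∑ j, (wd X j (f j) x -
          f j x * wd X j (fun y => ((φ y - Ψ y : ℝ) : ℂ)) x)‖ ^ 2 *
        Real.exp (-(φ x - 2 * Ψ x)) ∂μ +
      (1 / 4) * ∫ x, (∑ j, ∑ k, ‖wdb X j (f k) x - wdb X k (f j) x‖ ^ 2) * Real.exp (-φ x) ∂μ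

/-- **MollCn.** Regularization in `ℂⁿ`.

PROOF. `F^ν = ρ_ν * F` with smooth bumps `ρ_ν` of integral one and radius `ε_ν → 0`
(`ContDiffBump.normed`). `F^ν` is smooth with compact support in the `ε_ν`-neighbourhood of `K`. For a constant
coefficient operator `P` (here `∑_j ∂_j` and `∂̄_j, ∂̄_k`) with weak `P F = d`: `P(ρ_ν * F)(z) = ∫ F(y) (P ρ_ν)(z - y) dy =
(ρ_ν * d)(z)` (use the test function `ξ(y) = ρ_ν(z - y)`, whose derivatives are minus those of `ρ_ν`). Finally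
`ρ_ν * g → g` in `L²` for `g ∈ L²`: true for continuous `g` with compact support (uniformly continuous), and
`‖ρ_ν * g‖₂ ≤ ‖g‖₂` (Cauchy-Schwarz `|ρ*g|² ≤ ρ*|g|²` and Fubini); continuous functions with compact support are
dense in `L²`. -/
def S_MollCn : Prop := ∀ (n : ℕ) (K O : Set (Cn n)), IsCompact K → IsOpen O → K ⊆ O →
  ∀ (f : Fin n → Cn n → ℂ) (d : Cn n → ℂ) (c : Fin n → Fin n → Cn n → ℂ),
  (∀ j, MemLp (f j) 2 ∧ ∀ z ∉ K, f j z = 0) → (MemLp d 2 ∧ ∀ z ∉ K, d z = 0) →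
  (∀ j k, MemLp (c j k) 2 ∧ ∀ z ∉ K, c j k z = 0) →
  (∀ ξ : Cn n → ℂ, ContDiff ℝ ∞ ξ → HasCompactSupport ξ →
    ∫ z, ∑ j, f j z * ((1 / 2) * (fderiv ℝ ξ z (Pi.single j 1) -
      Complex.I * fderiv ℝ ξ z (Pi.single j Complex.I))) = - ∫ z, d z * ξ z) →
  (∀ ξ : Cn n → ℂ, ContDiff ℝ ∞ ξ → HasCompactSupport ξ → ∀ j k,
    ∫ z, (f k z * ((1 / 2) * (fderiv ℝ ξ z (Pi.single j 1) +
        Complex.I * fderiv ℝ ξ z (Pi.single j Complex.I))) -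
      f j z * ((1 / 2) * (fderiv ℝ ξ z (Pi.single k 1) +
        Complex.I * fderiv ℝ ξ z (Pi.single k Complex.I)))) = - ∫ z, c j k z * ξ z) →
  ∃ (K' : Set (Cn n)) (F : ℕ → Fin n → Cn n → ℂ), IsCompact K' ∧ K' ⊆ O ∧
    (∀ ν j, ContDiff ℝ ∞ (F ν j) ∧ ∀ z ∉ K', F ν j z = 0) ∧
    (∀ j, Tendsto (fun ν => ∫ z, ‖F ν j z - f j z‖ ^ 2) atTop (𝓝 0)) ∧
    Tendsto (fun ν => ∫ z, ‖(∑ j, (1 / 2) * (fderiv ℝ (F ν j) z (Pi.single j 1) -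
      Complex.I * fderiv ℝ (F ν j) z (Pi.single j Complex.I))) - d z‖ ^ 2) atTop (𝓝 0) ∧
    ∀ j k, Tendsto (fun ν => ∫ z, ‖((1 / 2) * (fderiv ℝ (F ν k) z (Pi.single j 1) +
        Complex.I * fderiv ℝ (F ν k) z (Pi.single j Complex.I)) -
      (1 / 2) * (fderiv ℝ (F ν j) z (Pi.single k 1) +
        Complex.I * fderiv ℝ (F ν j) z (Pi.single k Complex.I))) - c j k z‖ ^ 2) atTop (𝓝 0)

/-- **Moll.** Regularization on `X`.

PROOF. Partition of unity (`PU`) `θ_i` near `K`: `θ_i f` has the divergence `θ_i d + ∑ f_j wd j θ_i` and the curl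
`θ_i c_jk + f_k wdb j θ_i - f_j wdb k θ_i` (test with `θ_i ξ`), all with compact support in
`(ch c_i).target`; transport to `ℂⁿ` by `ch c_i` (`PullFacts`; a test function `ξ` on `ℂⁿ` gives the test function
`x ↦ β(x) ξ(X.π x)` on `X` with a cut-off `β ∈ CS` which is `1` near the support and supported in the target), apply `MollCn` with
`O = (ch c_i).source`, transport back (extension by `0`) and sum over `i`: `∑ θ_i f = f`,
`∑ (θ_i d + ∑ f_j wd j θ_i) = d` since `∑ θ_i = 1` near `K`. -/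
def S_Moll : Prop := ∀ (n : ℕ) (X : Dom n) (μ : Measure X) (_ : Pull X μ) (K : Set X),
  IsCompact K → ∀ (f : Fin n → X → ℂ) (d : X → ℂ) (c : Fin n → Fin n → X → ℂ),
  (∀ j, MemLp (f j) 2 μ ∧ ∀ z ∉ K, f j z = 0) → (MemLp d 2 μ ∧ ∀ z ∉ K, d z = 0) →
  (∀ j k, MemLp (c j k) 2 μ ∧ ∀ z ∉ K, c j k z = 0) →
  (∀ ξ : X → ℂ, CS X ξ → ∫ x, ∑ j, f j x * wd X j ξ x ∂μ = - ∫ x, d x * ξ x ∂μ) →
  (∀ ξ : X → ℂ, CS X ξ → ∀ j k,
    ∫ x, (f k x * wdb X j ξ x - f j x * wdb X k ξ x) ∂μ = - ∫ x, c j k x * ξ x ∂μ) →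
  ∃ (K' : Set X) (F : ℕ → Fin n → X → ℂ), IsCompact K' ∧
    (∀ ν j, Sm X (F ν j) ∧ ∀ x ∉ K', F ν j x = 0) ∧
    (∀ j, Tendsto (fun ν => ∫ x, ‖F ν j x - f j x‖ ^ 2 ∂μ) atTop (𝓝 0)) ∧
    Tendsto (fun ν => ∫ x, ‖(∑ j, wd X j (F ν j) x) - d x‖ ^ 2 ∂μ) atTop (𝓝 0) ∧
    ∀ j k, Tendsto (fun ν => ∫ x, ‖(wdb X j (F ν k) x - wdb X k (F ν j) x) - c j k x‖ ^ 2 ∂μ)
      atTop (𝓝 0)

/-- **AprC.** The a priori estimate for `ρ f`, `f` in the weak domain.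

PROOF. `f' = ρ f` satisfies (test functions `ρ ξ` in `WT`, `WC`; the weights are smooth, so they may be absorbed in
`ξ`): weak divergence `d = ∑ f'_j wd j (φ - Ψ) - e^Ψ v'`, `v' = ρ v - e^{-Ψ} ∑ f_j wd j ρ`, [from
`∫ ∑ f_j wd j ξ e^{-(φ-Ψ)} = ∫ v ξ e^{-(φ-2Ψ)}` with `ξ ↦ ρ ξ e^{φ-Ψ}`] and weak curl
`c_jk = wdb j ρ f_k - wdb k ρ f_j`. All of them are in `L²` with support in `tsupport ρ`. `Moll` gives smooth `F^ν → ρ f`;
`AprSm` for `F^ν`; pass to the limit (all supports in a compact set `K'` on which the weights and `wd j (φ - Ψ)` are bounded):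
`e^{-Ψ}(∑ wd j F_j - F_j wd j (φ-Ψ)) → e^{-Ψ}(d - ∑ f'_j wd j (φ - Ψ)) = - v'`. -/
def S_AprC : Prop := ∀ (n : ℕ) (X : Dom n) (μ : Measure X) (_ : Pull X μ) (φ Ψ : X → ℝ),
  Sm X φ → Sm X Ψ →
  (∀ x w, 2 * (gsq X Ψ x + Real.exp (Ψ x)) * nsq w ≤ Lev X φ x w) →
  ∀ (f : Fin n → X → ℂ) (v : X → ℂ), (∀ j, AEStronglyMeasurable (f j) μ) →
  AEStronglyMeasurable v μ →
  (∀ K : Set X, IsCompact K → (∀ j, IntegrableOn (fun x => ‖f j x‖ ^ 2) K μ) ∧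
    IntegrableOn (fun x => ‖v x‖ ^ 2) K μ) →
  WT X μ (fun x => φ x - 2 * Ψ x) (fun x => φ x - Ψ x) f v → WC X μ f →
  ∀ ρ : X → ℝ, CS X ρ →
    ∫ x, (ρ x) ^ 2 * (∑ j, ‖f j x‖ ^ 2) * Real.exp (-(φ x - Ψ x)) ∂μ ≤
      ∫ x, ‖ρ x * v x - Real.exp (-Ψ x) * ∑ j, f j x * wd X j (fun y => (ρ y : ℂ)) x‖ ^ 2 *
        Real.exp (-(φ x - 2 * Ψ x)) ∂μ +
      (1 / 4) * ∫ x, (∑ j, ∑ k, ‖wdb X j (fun y => (ρ y : ℂ)) x * f k x -
        wdb X k (fun y => (ρ y : ℂ)) x * f j x‖ ^ 2) * Real.exp (-φ x) ∂μ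

/-- Cut-off functions on the sublevel sets of `s`. -/
def Cut {n : ℕ} (X : Dom n) (s : X → ℝ) : Prop :=
  ∀ c : ℝ, ∃ (C : ℝ) (κ : ℕ → X → ℝ), (∀ ν, CS X (κ ν) ∧ ∀ x, 0 ≤ κ ν x ∧ κ ν x ≤ 1) ∧
    (∀ ν x, s x < c → ‖dR X (κ ν) x‖ ≤ C) ∧
    ∀ x, s x < c → ∀ᶠ ν in atTop, ∀ᶠ y in 𝓝 x, κ ν y = 1

/-- `s` is a (generalized) exhaustion function. -/
structure Exh {n : ℕ} (X : Dom n) (s : X → ℝ) : Prop where
  sm : Sm X s
  nonneg : ∀ x, 0 ≤ s x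
  lev : ∀ a : ℝ, ∃ δ > 0, ∀ x, s x ≤ a → ∀ w, δ * nsq w ≤ Lev X s x w
  grad : ∀ a : ℝ, ∃ B : ℝ, ∀ x, s x ≤ a → ‖dR X s x‖ ≤ B
  cut : Cut X s

/-- **Apriori.** The a priori estimate for the weak domain, completeness.

PROOF. Let `η_c(t) = 1 - smoothTransition (t - c)`, `|η_c'| ≤ C₀` (hypothesis on `C₀`). Apply `AprC` with
`ρ = η_c(s) κ_ν`, `κ` from `Cut` at the level `c + 2`. `|wd ρ| = |wdb ρ|`, so with `G = ∫ gsq ρ |f|² e^{-φ}`: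
`‖ρ f‖² ≤ (1 + ε) ‖v‖² + (1 + 1/ε) G + G` for every `ε > 0` (norms of the statement; `∑_jk |a_j b_k - a_k b_j|² ≤ 2 |a|²|b|²`;
pointwise `|a + b|² ≤ (1 + ε) |a|² + (1 + 1/ε) |b|²`). `ν → ∞` (dominated convergence:
`gsq ρ ≤ const` on `{s < c+2}`, `gsq ρ = 0` elsewhere, `e^{-φ} ≤ e^{-(φ-Ψ)}`, `ρ = η_c(s)` near `x` for large `ν`): `G → ∫ gsq (η_c∘s) |f|² e^{-φ} ≤
∫_{c ≤ s ≤ c+1} C₀² n ‖dR s‖² |f|² e^{-φ} ≤ ∫_{c ≤ s ≤ c+1} |f|² e^{-(φ-Ψ)}` for `c ≥ c₀`, which tends to `0` as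
`c → ∞` along the integers (tails of a convergent integral); the left side tends to the full integral (Fatou or monotone).
Finally `ε → 0`. -/
def S_Apriori : Prop := ∀ (n : ℕ) (X : Dom n) (μ : Measure X) (_ : Pull X μ) (φ Ψ s : X → ℝ),
  Sm X φ → Sm X Ψ → Exh X s → (∀ x, 0 ≤ Ψ x) →
  (∀ x w, 2 * (gsq X Ψ x + Real.exp (Ψ x)) * nsq w ≤ Lev X φ x w) →
  ∀ C₀ c₀ : ℝ, (∀ t, |deriv Real.smoothTransition t| ≤ C₀) →
  (∀ x, c₀ ≤ s x → C₀ ^ 2 * n * ‖dR X s x‖ ^ 2 ≤ Real.exp (Ψ x)) →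
  ∀ (f : Fin n → X → ℂ) (v : X → ℂ), (∀ j, AEStronglyMeasurable (f j) μ) →
  AEStronglyMeasurable v μ →
  Integrable (fun x => (∑ j, ‖f j x‖ ^ 2) * Real.exp (-(φ x - Ψ x))) μ →
  Integrable (fun x => ‖v x‖ ^ 2 * Real.exp (-(φ x - 2 * Ψ x))) μ →
  WT X μ (fun x => φ x - 2 * Ψ x) (fun x => φ x - Ψ x) f v → WC X μ f →
    ∫ x, (∑ j, ‖f j x‖ ^ 2) * Real.exp (-(φ x - Ψ x)) ∂μ ≤
      ∫ x, ‖v x‖ ^ 2 * Real.exp (-(φ x - 2 * Ψ x)) ∂μ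

/-- **Hilb.** PROOF. `f = f₁ + f₂`, `f₁` the orthogonal projection of `f` to `K`; `⟪b i, f₂⟫ = 0`, so `f₁` satisfies the
equations with the same `v`, `‖f₁‖ ≤ ‖v‖` and `⟪g, f⟫ = ⟪g, f₁⟫`. -/
def S_Hilb : Prop := ∀ (H₁ H₂ : Type) [NormedAddCommGroup H₁] [InnerProductSpace ℂ H₁]
  [NormedAddCommGroup H₂] [InnerProductSpace ℂ H₂] [CompleteSpace H₂] (K : Submodule ℂ H₂)
  (_ : IsClosed (K : Set H₂)) (ι : Type) (a : ι → H₁) (b : ι → H₂), (∀ i, b i ∈ K) →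
  (∀ f ∈ K, ∀ v, (∀ i, inner ℂ (b i) f = inner ℂ (a i) v) → ‖f‖ ≤ ‖v‖) →
  ∀ f v, (∀ i, inner ℂ (b i) f = inner ℂ (a i) v) → ∀ g ∈ K, ‖inner ℂ g f‖ ≤ ‖g‖ * ‖v‖

/-- **Wt.** Convex increasing functions.

PROOF. `S = Real.smoothTransition` (`0` for `t ≤ 0`, `1` for `t ≥ 1`, smooth, monotone, so `S' ≥ 0`). With
`C_k = max(0, r_0, ..., r_{m_k})`, `m_k = ⌈a⌉₊ + k + 2`, let `g(t) = ∑_k C_k' S(2(t - a) - k)`, `C_k' ≥ 2 C_k + 2`-like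
constants, locally finite sum, `g ≥ 0`, `g' ≥ 0`, `g = 0` for `t ≤ a`, and `χ(t) = ∫_a^t g`. For `t ≥ a + 1` with
`a + 1 + k ≤ t < a + 2 + k`: `g(t) ≥ C_{k}'`, and `χ(t) ≥ ∫_{a+1/2}^{a+1} g + ... ` is at least half of the constant chosen one step earlier
(choose the constants one step ahead). -/
def S_Wt : Prop := ∀ (r : ℕ → ℝ) (a : ℝ), ∃ χ : ℝ → ℝ, ContDiff ℝ ∞ χ ∧ (∀ t ≤ a, χ t = 0) ∧
  (∀ t, 0 ≤ χ t ∧ 0 ≤ deriv χ t ∧ 0 ≤ deriv (deriv χ) t) ∧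
  ∀ t, a + 1 ≤ t → r ⌈t⌉₊ ≤ χ t ∧ r ⌈t⌉₊ ≤ deriv χ t

/-- **Est.** The main estimate.

PROOF. `C₀` a bound of `|smoothTransition'|` (it is continuous and vanishes outside `[0,1]`). Choose `a` with
`s < a` on the supports of `χ` and of the `f_j` (compact). For `k ∈ ℕ` let `‖dR s‖ ≤ B_k`, `δ_k nsq w ≤ Lev s w` on `{s ≤ k}`
(`Exh`), and note `s x ≤ ⌈s x⌉₊`. `Wt` with `r_k = log (1 + C₀² n B_k²)` and `a + 1`: function `ϑ`; `Ψ = ϑ∘s`, so `Ψ = 0` on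
`{s ≤ a + 1}`, and `C₀² n ‖dR s‖² ≤ e^Ψ` for `s ≥ a + 2`. `gsq Ψ = ϑ'(s)² gsq s ≤ ϑ'(s)² n ‖dR s‖²`. Let `D_k`, `E_k` be bounds of
`|ϑ'|`, `e^ϑ` on `[0, k]`; `Wt` with `r_k = (2 D_k² n B_k² + 2 E_k)/δ_k` and `a`: function `χ_a`; `φ' = φ + χ_a∘s`. By `LevComp`
`Lev φ' ≥ Lev φ + χ_a'(s) Lev s`; so `2 (gsq Ψ + e^Ψ) nsq w ≤ Lev φ' w`: for `s x ≥ a + 1` by the choice of `χ_a`, for
`s x < a + 1` because `ϑ(s) = 0`, `ϑ'(s) = 0` and `2 nsq w ≤ Lev φ w`. `Apriori` holds for `φ', Ψ, s`, `c₀ = a + 2`.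
`Hilb` with `H₁ = L²(e^{-(φ'-2Ψ)} μ)`, `H₂ = L²(e^{-(φ'-Ψ)} μ; ℂⁿ)` (`Lp (EuclideanSpace ℂ (Fin n)) 2` of
`μ.withDensity`), `K` = weakly closed forms (`WC`; closed subspace, since the test functions are in `L²`), the test functions
`ι = {u // CS X u}`, `a u = u`, `b u = (wdb j u)_j ∈ K` (`IBP`). [`WT` says `⟪b u, f⟫ = ⟪a u, v⟫` for `ξ = conj u`.]
`g = (wdb j χ)_j ∈ K`, `f` = the given smooth form, `v = T* f = -(∑ wd j f_j - f_j wd j φ)` (the weights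
coincide with `φ` near the supports). The inequality of `Hilb` is the claim, the weights being `φ` on the supports. -/
def S_Est : Prop := ∀ (n : ℕ) (X : Dom n) (μ : Measure X) (_ : Pull X μ) (s φ : X → ℝ),
  Exh X s → Sm X φ → (∀ x w, 2 * nsq w ≤ Lev X φ x w) →
  ∀ (χ : X → ℂ) (f : Fin n → X → ℂ), CS X χ → (∀ j, CS X (f j)) →
    ‖∫ x, (∑ j, conj (wdb X j χ x) * f j x) * Real.exp (-φ x) ∂μ‖ ^ 2 ≤
      (∫ x, (∑ j, ‖wdb X j χ x‖ ^ 2) * Real.exp (-φ x) ∂μ) *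
      ∫ x, ‖∑ j, (wd X j (f j) x - f j x * wd X j (fun y => (φ y : ℂ)) x)‖ ^ 2 *
        Real.exp (-φ x) ∂μ

/-- **Riesz.** Solution of the `∂̄`-equation.

PROOF. `H = L²(e^{-φ} μ)`. By `Est` the map `T f ↦ ∫ ∑ conj (wdb j χ) f_j e^{-φ}`, `T f = -∑ (wd j f_j - f_j wd j φ)`, on the
subspace `{T f}` is well defined, linear, of norm `≤ M = (∫ ∑ |wdb j χ|² e^{-φ})^{1/2}`; it extends to `H` and is
`⟪u, ·⟫` for some `u ∈ H`, `‖u‖ ≤ M` (Riesz, `InnerProductSpace.toDual`; e.g. first on the closure, or `exists_extension_norm_eq`).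
For a test function `ζ` take `f_j = ζ e^φ`, the other components `0`: `T f = - e^φ wd j ζ`, so
`-∫ conj u · wd j ζ = ∫ conj (wdb j χ) ζ`; conjugate and put `ζ = conj ξ`. -/
def S_Riesz : Prop := ∀ (n : ℕ) (X : Dom n) (μ : Measure X) (_ : Pull X μ) (s φ : X → ℝ),
  Exh X s → Sm X φ → (∀ x w, 2 * nsq w ≤ Lev X φ x w) → ∀ χ : X → ℂ, CS X χ →
    ∃ u : X → ℂ, AEStronglyMeasurable u μ ∧
      Integrable (fun x => ‖u x‖ ^ 2 * Real.exp (-φ x)) μ ∧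
      ∫ x, ‖u x‖ ^ 2 * Real.exp (-φ x) ∂μ ≤
        ∫ x, (∑ j, ‖wdb X j χ x‖ ^ 2) * Real.exp (-φ x) ∂μ ∧
      ∀ ξ : X → ℂ, CS X ξ → ∀ j, ∫ x, u x * wdb X j ξ x ∂μ = - ∫ x, wdb X j χ x * ξ x ∂μ

/-- **WeylCn.** Weakly holomorphic functions are holomorphic.

PROOF. On the ball of radius `r - ε` the function `u_ε = ρ_ε * u` is smooth with `∂̄_j u_ε = 0` (test function
`y ↦ ρ_ε(z - y)`), hence holomorphic (real differentiable with complex linear derivative). `u_ε → u` in `L¹` of smaller balls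
(density of continuous functions), and by the mean value property of holomorphic functions
`sup_{B(r')} |u_ε - u_δ| ≤ C ∫_{B(r'')} |u_ε - u_δ|`; so `u_ε` converges locally uniformly to a holomorphic function
(`TendstoLocallyUniformlyOn` and Osgood, or Cauchy's formula in each variable), equal to `u` a.e. Exhaust the ball. -/
def S_WeylCn : Prop := ∀ (n : ℕ) (c : Cn n) (r : ℝ), 0 < r → ∀ u : Cn n → ℂ,
  IntegrableOn u (ball c r) →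
  (∀ ξ : Cn n → ℂ, ContDiff ℝ ∞ ξ → HasCompactSupport ξ → tsupport ξ ⊆ ball c r → ∀ j,
    ∫ z, u z * (fderiv ℝ ξ z (Pi.single j 1) +
      Complex.I * fderiv ℝ ξ z (Pi.single j Complex.I)) = 0) →
  ∃ h : Cn n → ℂ, DifferentiableOn ℂ h (ball c r) ∧ ∀ᵐ z ∂(volume.restrict (ball c r)), u z = h z

/-- **Weyl.** PROOF. `WeylCn` in balls of the charts (`PullFacts`), countably many charts; two holomorphic functions which agree
almost everywhere on an open set agree there (open sets have positive measure). -/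
def S_Weyl : Prop := ∀ (n : ℕ) (X : Dom n) (μ : Measure X) (_ : Pull X μ) (u : X → ℂ),
  (∀ K : Set X, IsCompact K → IntegrableOn u K μ) →
  (∀ ξ : X → ℂ, CS X ξ → ∀ j, ∫ x, u x * wdb X j ξ x ∂μ = 0) →
  ∃ h : X → ℂ, (∀ x, HolAt X.π h x) ∧ ∀ᵐ x ∂μ, u x = h x

/-- **L2.** Hörmander's theorem. PROOF. `u` from `Riesz`; `χ - u` is weakly holomorphic (`IBP`: `∫ χ wdb j ξ = - ∫ wdb j χ ξ`);
`Weyl`: `χ - u = h` a.e. -/
def S_L2 : Prop := ∀ (n : ℕ) (X : Dom n) (μ : Measure X) (_ : Pull X μ) (s φ : X → ℝ),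
  Exh X s → Sm X φ → (∀ x w, 2 * nsq w ≤ Lev X φ x w) → ∀ χ : X → ℂ, CS X χ →
    ∃ h : X → ℂ, (∀ x, HolAt X.π h x) ∧
      Integrable (fun x => ‖χ x - h x‖ ^ 2 * Real.exp (-φ x)) μ ∧
      ∫ x, ‖χ x - h x‖ ^ 2 * Real.exp (-φ x) ∂μ ≤
        ∫ x, (∑ j, ‖wdb X j χ x‖ ^ 2) * Real.exp (-φ x) ∂μ

/-- **MeanRad.** PROOF. For fixed `z` the function `ζ ↦ g(ζ z)` is holomorphic in a neighbourhood of the closed unit disc, so
`g(0)` is its mean over the unit circle and `|g(0)|² ≤ (2π)⁻¹ ∫ |g(e^{iθ} z)|² dθ` (Cauchy-Schwarz/Jensen). Multiply by `q(z) = q(e^{iθ}z)`, integrate over the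
ball, Fubini, and use that `z ↦ e^{iθ} z` preserves the Lebesgue measure and the ball. -/
def S_MeanRad : Prop := ∀ (n : ℕ) (r : ℝ), 0 < r → ∀ (g : Cn n → ℂ) (q : Cn n → ℝ),
  DifferentiableOn ℂ g (ball 0 r) → Continuous q → (∀ z, 0 ≤ q z) →
  (∀ z (ζ : ℂ), ‖ζ‖ = 1 → q (ζ • z) = q z) →
  IntegrableOn (fun z => ‖g z‖ ^ 2 * q z) (ball 0 r) →
    ‖g 0‖ ^ 2 * ∫ z in ball (0 : Cn n) r, q z ≤ ∫ z in ball (0 : Cn n) r, ‖g z‖ ^ 2 * q z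

/-- **LogInf.** PROOF. In the shell `2^{-k-1} r ≤ ‖z‖ < 2^{-k} r` (maximum norm) `nsq z ≤ n 4^{-k} r²`, the volume of the shell is
`v (2^{-k} r)^{2n} (1 - 4^{-n})`, so for `ε ≤ 2^{-k} r` the shell contributes at least a constant `c(n) > 0`; take many shells. -/
def S_LogInf : Prop := ∀ (n : ℕ), 0 < n → ∀ r : ℝ, 0 < r → ∀ C : ℝ, ∃ ε₀ > 0, ∀ ε, 0 < ε → ε < ε₀ →
  C ≤ ∫ z in ball (0 : Cn n) r, ((nsq z + ε ^ 2) ^ n)⁻¹

/-- **LogLev.** PROOF. With `u = ε² + ∑ |z_j - a_j|²`: `Lev (log u) w = Lev u w / u - |∂u(w)|²/u²`, `Lev u w = nsq w`,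
`|∂u(w)|² = |∑ conj(z_j - a_j) w_j|² ≤ (u - ε²) nsq w` (`LevComp` with `χ = log` near positive reals, or a direct computation). -/
def S_LogLev : Prop := ∀ (n : ℕ) (X : Dom n) (a : Cn n) (ε : ℝ), 0 < ε →
  Sm X (fun x => (n : ℝ) * Real.log (nsq (X.π x - a) + ε ^ 2)) ∧
  ∀ x w, 0 ≤ Lev X (fun x => (n : ℝ) * Real.log (nsq (X.π x - a) + ε ^ 2)) x w

/-- **Eval.** Holomorphic functions with almost prescribed values at two points of a fibre.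

PROOF. `z₀ = X.π a`. Choose a ball `B = B(z₀, 3r) ⊆ (ch a).source` such that `b ∉ ch a '' B` if `b ≠ a` (`ch a '' B` is injective over
`B` and contains `a`; so `b ≠ a`, `π b = π a` is never in it), and the same for `b`. `χ = β ∘ π` on `ch a '' B`, `0` elsewhere, with a smooth
bump `β`, `β = 1` on `B(z₀, r)`, `tsupport β ⊆ closedBall z₀ (2 r)`. `L2` with `φ_ε = φ + n log (nsq (π x - z₀) + ε²)` (`LogLev`): the right side is
bounded by `C` independent of `ε` because `∂̄χ = 0` where `‖π x - z₀‖ < r`. So for the function `h_ε`: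
`∫_{ch a '' B(z₀,r)} |1 - h_ε|² e^{-φ} (nsq (π x - z₀) + ε²)^{-n} ≤ C`, `e^{-φ} ≥ m > 0` on the (relatively compact) image of
the ball, hence by `MeanRad` (in the chart) `|1 - h_ε(a)|² ∫_{B(0,r)} (nsq z + ε²)^{-n} ≤ C/m`, small for small `ε` by `LogInf`. The
same at `b`, where `χ = 0` near `b` (ball `B(z₀, r')` in the chart of `b`, disjoint from the support of `χ`). On `{nsq (π x) ≤ r}` the factor
`(nsq(π x - z₀) + ε²)^{-n}` is bounded below by a positive constant, so `|χ - h|² e^{-φ}` and then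
`|h|² e^{-φ}` are integrable there. -/
def S_Eval : Prop := ∀ (n : ℕ), 0 < n → ∀ (X : Dom n) (μ : Measure X) (_ : Pull X μ) (s φ : X → ℝ),
  Exh X s → Sm X φ → (∀ x w, 2 * nsq w ≤ Lev X φ x w) → ∀ a b : X, X.π b = X.π a →
    ∃ h : X → ℂ, (∀ x, HolAt X.π h x) ∧ ‖h a - 1‖ < 1 / 4 ∧ (b ≠ a → ‖h b‖ < 1 / 4) ∧
      ∀ r : ℝ, IntegrableOn (fun x => ‖h x‖ ^ 2 * Real.exp (-φ x)) {x | nsq (X.π x) ≤ r} μ

end Pool.Agent.Lib.MP_55bc5f_an
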