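import Mathlib
import Pool.Agent.Lib.MP_55bc5f_an.Main
import Pool.Agent.Lib.MP_55bc5f_an.Full.L2.Meas
import Pool.Agent.Lib.MP_55bc5f_an.Full.L2.PullFacts
import Pool.Agent.Lib.MP_55bc5f_an.Full.L2.PU
import Pool.Agent.Lib.MP_55bc5f_an.Full.L2.IBP
import Pool.Agent.Lib.MP_55bc5f_an.Full.L2.LevSum
import Pool.Agent.Lib.MP_55bc5f_an.Full.L2.LevComp
import Pool.Agent.Lib.MP_55bc5f_an.Full.L2.Basic
import Pool.Agent.Lib.MP_55bc5f_an.Full.L2.AprSm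
import Pool.Agent.Lib.MP_55bc5f_an.Full.L2.MollCn
import Pool.Agent.Lib.MP_55bc5f_an.Full.L2.Moll
import Pool.Agent.Lib.MP_55bc5f_an.Full.L2.AprC
import Pool.Agent.Lib.MP_55bc5f_an.Full.L2.Apriori
import Pool.Agent.Lib.MP_55bc5f_an.Full.L2.Hilb
import Pool.Agent.Lib.MP_55bc5f_an.Full.L2.Wt
import Pool.Agent.Lib.MP_55bc5f_an.Full.L2.Est
import Pool.Agent.Lib.MP_55bc5f_an.Full.L2.Riesz
import Pool.Agent.Lib.MP_55bc5f_an.Full.L2.WeylCn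
import Pool.Agent.Lib.MP_55bc5f_an.Full.L2.Weyl
import Pool.Agent.Lib.MP_55bc5f_an.Full.L2.L2
import Pool.Agent.Lib.MP_55bc5f_an.Full.L2.MeanRad
import Pool.Agent.Lib.MP_55bc5f_an.Full.L2.LogInf
import Pool.Agent.Lib.MP_55bc5f_an.Full.L2.LogLev
import Pool.Agent.Lib.MP_55bc5f_an.Full.L2.Eval
import Pool.Agent.Lib.MP_55bc5f_an.Full.Et.Conn
import Pool.Agent.Lib.MP_55bc5f_an.Full.Et.Ident
import Pool.Agent.Lib.MP_55bc5f_an.Full.Et.Glue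
import Pool.Agent.Lib.MP_55bc5f_an.Full.Et.Jac
import Pool.Agent.Lib.MP_55bc5f_an.Full.Et.Rem1
import Pool.Agent.Lib.MP_55bc5f_an.Full.Et.ExtCn
import Pool.Agent.Lib.MP_55bc5f_an.Full.Et.Ext
import Pool.Agent.Lib.MP_55bc5f_an.Full.Et.LevLoc
import Pool.Agent.Lib.MP_55bc5f_an.Full.Et.LevZ
import Pool.Agent.Lib.MP_55bc5f_an.Full.Et.LevInv
import Pool.Agent.Lib.MP_55bc5f_an.Full.Et.WtE
import Pool.Agent.Lib.MP_55bc5f_an.Full.Et.Comp
import Pool.Agent.Lib.MP_55bc5f_an.Full.Et.CutCov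
import Pool.Agent.Lib.MP_55bc5f_an.Full.Et.Exh
import Pool.Agent.Lib.MP_55bc5f_an.Full.Et.Fun
import Pool.Agent.Lib.MP_55bc5f_an.Full.Et.VF
import Pool.Agent.Lib.MP_55bc5f_an.Full.Et.Sep
import Pool.Agent.Lib.MP_55bc5f_an.Full.Et.Inj
import Pool.Agent.Lib.MP_55bc5f_an.Full.Et.FormU
import Pool.Agent.Lib.MP_55bc5f_an.Full.Et.FormE
import Pool.Agent.Lib.MP_55bc5f_an.Full.Et.Closed
import Pool.Agent.Lib.MP_55bc5f_an.Full.Et.SolInv
import Pool.Agent.Lib.MP_55bc5f_an.Full.Et.LocSol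
import Pool.Agent.Lib.MP_55bc5f_an.Full.Et.PV
import Pool.Agent.Lib.MP_55bc5f_an.Full.Et.CompCov
import Pool.Agent.Lib.MP_55bc5f_an.Full.Et.Sys
import Pool.Agent.Lib.MP_55bc5f_an.Full.Et.MainPos
import Pool.Agent.Lib.MP_55bc5f_an.Full.Mfd.Minor
import Pool.Agent.Lib.MP_55bc5f_an.Full.Mfd.TrLM
import Pool.Agent.Lib.MP_55bc5f_an.Full.Mfd.Retr
import Pool.Agent.Lib.MP_55bc5f_an.Full.Mfd.TrHol
import Pool.Agent.Lib.MP_55bc5f_an.Full.Mfd.TrMap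
import Pool.Agent.Lib.MP_55bc5f_an.Full.Mfd.MfdPos
import Pool.Agent.Lib.MP_55bc5f_an.Full.Mfd.MeroHol
import Pool.Agent.Lib.MP_55bc5f_an.Full.Mfd.MeroGraph
import Pool.Agent.Lib.MP_55bc5f_an.Full.Mfd.MerId
import Pool.Agent.Lib.MP_55bc5f_an.Full.Mfd.Neg
import Pool.Agent.Lib.MP_55bc5f_an.Full.Mfd.Pos

/-!
# The meromorphic extension property is not open: assembly
-/

set_option autoImplicit false

namespace Pool.Agent.Lib.MP_55bc5f_an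

/-! ## `L²` theory -/

theorem f_PullFacts : S_PullFacts := s_PullFacts
theorem f_PU : S_PU := s_PU
theorem f_IBP : S_IBP := s_IBP f_PullFacts f_PU
theorem f_Basic : S_Basic := s_Basic f_PullFacts f_IBP s_LevSum
theorem f_AprSm : S_AprSm := s_AprSm f_PullFacts f_Basic
theorem f_Moll : S_Moll := s_Moll f_PullFacts f_PU f_IBP s_MollCn
theorem f_AprC : S_AprC := s_AprC f_PullFacts f_AprSm f_Moll
theorem f_Apriori : S_Apriori := s_Apriori f_PullFacts f_AprC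
theorem f_Est : S_Est := s_Est f_PullFacts f_IBP s_LevComp f_Apriori s_Hilb s_Wt
theorem f_Riesz : S_Riesz := s_Riesz f_PullFacts f_IBP f_Est
theorem f_Weyl : S_Weyl := s_Weyl f_PullFacts s_WeylCn
theorem f_L2 : S_L2 := s_L2 f_PullFacts f_IBP f_Riesz f_Weyl
theorem f_LogLev : S_LogLev := s_LogLev s_LevComp
theorem f_Eval : S_Eval := s_Eval f_PullFacts s_LevComp f_LogLev f_L2 s_MeanRad s_LogInf

/-! ## Stein manifolds -/

theorem f_LevZ : S_LevZ := s_LevZ s_LevComp s_LevLoc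
theorem f_ExtCn : S_ExtCn := s_ExtCn s_Rem1
theorem f_Jac : S_Jac := s_Jac f_PullFacts
theorem f_Ext : S_Ext := s_Ext f_PullFacts f_Jac f_ExtCn
theorem f_WtE : S_WtE := s_WtE s_LevComp s_Wt s_LevLoc f_LevZ s_LevInv
theorem f_CutCov : S_CutCov := s_CutCov f_PU
theorem f_Exh : S_Exh := s_Exh f_LevZ s_Comp f_CutCov
theorem f_Fun : S_Fun := s_Fun s_Meas f_Eval s_Conn f_Ext f_LevZ f_WtE f_Exh
theorem f_VF : S_VF := s_VF s_Glue
theorem f_Sep : S_Sep := s_Sep s_Meas s_LevComp f_Eval s_Conn s_Glue f_Ext f_LevZ f_Exh f_Fun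
theorem f_Inj : S_Inj := s_Inj s_Ident f_Sep
theorem f_FormE : S_FormE := s_FormE s_Conn s_Ident f_Fun f_VF
theorem f_Closed : S_Closed := s_Closed s_Conn
theorem f_LocSol : S_LocSol := s_LocSol s_SolInv
theorem f_Sys : S_Sys := s_Sys s_PV s_CompCov
theorem f_MainPos : S_MainPos :=
  s_MainPos f_Inj s_FormU f_FormE f_Closed s_SolInv f_LocSol f_Sys

/-! ## Manifolds -/

theorem f_TrLM : S_TrLM := s_TrLM s_Minor
theorem f_TrHol : S_TrHol := s_TrHol s_Retr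
theorem f_TrMap : S_TrMap := s_TrMap s_Retr
theorem f_MfdPos : S_MfdPos := s_MfdPos f_MainPos f_TrLM f_TrHol f_TrMap
theorem f_Neg : S_Neg := s_Neg s_MeroGraph s_MerId

theorem main_full :
    ∃ 𝒟 : Deformation (ℂ × ℂ × ℂ) (ℂ × ℂ × ℂ × ℂ),
      MEP (𝒟.fibre ⟨0, Metric.mem_ball_self one_pos⟩) ∧
      ∀ t : Metric.ball (0 : ℂ) 1, (t : ℂ) ≠ 0 → ¬ MEP (𝒟.fibre t) :=
  ⟨Defo, mep_zero f_MfdPos s_MeroHol s_MeroGraph, fun t ht => f_Neg t ht⟩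

end Pool.Agent.Lib.MP_55bc5f_an
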