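import Mathlib
import Pool.Agent.Lib.MP_55bc5f_an.Full.SpecL2
import Pool.Agent.Lib.MP_55bc5f_an.Full.EtA
import Pool.Agent.Lib.MP_55bc5f_an.Positive

/-!
# Manifolds immersed into `ℂᴺ`, coverings of Stein manifolds: statements and paper proofs

Notation: `M : LM n N` is an `n`-dimensional complex manifold with a holomorphic immersion
`M.z : M → ℂᴺ`; `M.E I` is the open set where `z_I = (z_{I a})_a` are local coordinates, `M.dom I : Dom n` the
étale domain `(M.E I, z_I)`, `M.inc I : M.dom I → M` the inclusion. Holomorphic functions on `M` are the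
functions `F` with `HolAt M.z F x` for all `x`, by `holAt_iff` this is the same as `HolAt (M.zI I) F x`
for `x ∈ M.E I`, and for functions on `M.dom I` see `holAt_dom`. `M.A I x` is the derivative of `z` with respect to
`z_I` (`Et.hasRD_A`, `Et.A_unique`, `Et.A_apply`, `A_change`, `Et.holAt_A`), `M.GJ I K` the Jacobian determinant
`det (∂z_{K a} / ∂z_{I b})` (`Et.holAt_GJ`, `Et.GJ_self`, `GJ_cocycle`, `GJ_inv`, `et_iff`),
`M.gs I = ∑_K |M.GJ I K|²` (`Et.one_le_gs`, `gs_change`).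
-/

set_option autoImplicit false

open scoped Manifold ContDiff Topology ComplexConjugate
open Set Filter Metric MeasureTheory

namespace Pool.Agent.Lib.MP_55bc5f_an

/-- The point of `M.dom I` given by `x ∈ M.E I`. -/
def LM.mk' {n N : ℕ} (M : LM n N) (I : Fin n → Fin N) (x : M) (h : x ∈ M.E I) : M.dom I :=
  (⟨x, h⟩ : {x : M // x ∈ M.E I})

/-- The chart of `M` at `x₀`. -/
noncomputable def LM.cht {n N : ℕ} (M : LM n N) (I : Fin n → Fin N) (x₀ : M.dom I) (w : Cn n) : M :=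
  M.inc I (ch (M.dom I).hπ x₀ w)

/-! ## Topology and the identity theorem -/

/-- **Conn.** `M.E I` is dense and connected.

PROOF. Every `x : M` lies in some `M.E I'`; let `x₀ = ⟨x, _⟩ : M.dom I'` and let `B` be a ball around
`z_{I'} x` in the source of `ch (M.dom I').hπ x₀`, `N = M.cht I' x₀ '' B`, an open neighbourhood of `x` in `M`; arbitrarily small.
By `et_iff`, `M.cht I' x₀ w ∈ M.E I ↔ G w ≠ 0` where `G = M.GJ I' I ∘ M.cht I' x₀` is differentiable on `B`
(`Et.holAt_GJ`, `HolAt.ch`). By `isPreconnected_diff_zeros` (`k = 1`) `{w ∈ B | G w ≠ 0}` is preconnected, hence so is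
`N ∩ M.E I`. (1) The set `T` of the points with a neighbourhood disjoint from `M.E I` is open; it is closed: if `x ∈ closure T`, then
`G` vanishes on a nonempty open subset of `B`, so on `B` (`AnalyticOnNhd.eqOn_zero_of_preconnected_of_eventuallyEq_zero`, holomorphic functions are
analytic by `Osgood.analyticOnNhd`) and `x ∈ T`. `M` is connected and `x₀ ∉ T`, so `T = ∅`: density. (2) Connectedness:
if `M.E I` is the disjoint union of nonempty relatively open (hence open) sets `A`, `B`, every small `N` as above has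
`N ∩ M.E I` nonempty and connected, so contained in `A` or in `B`; the sets of the points `x` having a neighbourhood
`N` with `N ∩ M.E I ⊆ A`, respectively `⊆ B`, are open, cover `M`, and are disjoint by density. Contradiction. -/
def S_Conn : Prop := ∀ (n N : ℕ) (M : LM n N), ConnectedSpace M → ∀ I : Fin n → Fin N,
  ((∃ x, x ∈ M.E I) → Dense (M.E I)) ∧ IsPreconnected (M.E I)

/-- **Ident.** Identity theorem. PROOF. `{x | F =ᶠ[𝓝 x] G}` is open; closed: for `x` in the closure choose `I` with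
`x ∈ M.E I` and a ball in the chart `M.cht I ⟨x, _⟩`; there `F` and `G` are analytic (`Osgood.analyticOnNhd`) and agree near some point;
see the proof of `identity` in `RDeriv.lean`. -/
def S_Ident : Prop := ∀ (n N : ℕ) (M : LM n N), ConnectedSpace M → ∀ (W : Type)
  [NormedAddCommGroup W] [NormedSpace ℂ W] [CompleteSpace W] (F G : M → W),
  (∀ x, HolAt M.z F x) → (∀ x, HolAt M.z G x) → ∀ x₀, F =ᶠ[𝓝 x₀] G → F = G

/-- **Glue.** PROOF. `g = extendFrom (M.E I) u`. For `I'` and `H`: for `x ∈ M.E I'` the limit of `u` at `x` along `M.E I` is `H x`,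
because `H` is continuous at `x` and equals `u` on `M.E I ∩ M.E I'`; `extendFrom_eq`. So `g = H` on `M.E I'`, an open set. For
`x ∈ M.E I` use `I' = I`. -/
def S_Glue : Prop := ∀ (n N : ℕ) (M : LM n N) (I : Fin n → Fin N), Dense (M.E I) → ∀ (W : Type)
  [NormedAddCommGroup W] [NormedSpace ℂ W] (u : M → W),
  (∀ I' : Fin n → Fin N, ∃ H : M → W, (∀ x ∈ M.E I', HolAt M.z H x) ∧
    ∀ x ∈ M.E I ∩ M.E I', H x = u x) →
  ∃ g : M → W, (∀ x, HolAt M.z g x) ∧ ∀ x ∈ M.E I, g x = u x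

/-! ## `L²` extension across the complement of `M.E I` -/

/-- **Jac.** Change of variables between `z_I` and `z_{I'}`.

PROOF. `T = {w ∈ S | GJ I' I (cht w) ≠ 0}` is open, `τ : T → M.dom I`, `τ w = ⟨M.cht I' x₀ w, _⟩` (`et_iff`) is injective,
continuous and open, with image the set of integration on the left. `q = z_I ∘ M.cht I' x₀ : T → ℂⁿ` is holomorphic, its derivative at
`w` is `(prI I).comp (M.A I' (cht w))`, with complex determinant `GJ I' I (cht w)`, hence the real determinant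
`|GJ I' I (cht w)|²` (`LinearMap.det_restrictScalars`, `Algebra.norm`). Every point of `T` has an open neighbourhood `O` with
`τ '' O ⊆ (ch (M.dom I).hπ y).target` for some `y`; on it `q` is injective and `τ = ch y ∘ q`. Countably many `O_i` cover `T`
(second countable); let `T_i = O_i \ ⋃_{j<i} O_j`. Then (fifth part of `PullFacts`) `∫⁻ over τ '' T_i = ∫⁻ over q '' T_i of f ∘ ch y_i =
∫⁻ over T_i of f (cht w) |det q'|` (`lintegral_image_eq_lintegral_abs_det_fderiv_mul`). Sum over `i`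
(`lintegral_iUnion`; all sets are measurable: images of measurable sets under homeomorphisms between open sets). -/
def S_Jac : Prop := ∀ (n N : ℕ) (M : LM n N) (I I' : Fin n → Fin N) (μ : Measure (M.dom I))
  (_ : Pull (M.dom I) μ) (x₀ : M.dom I') (S : Set (Cn n)), IsOpen S →
  S ⊆ (ch (M.dom I').hπ x₀).source → ∀ f : M → ℝ, ContinuousOn f (M.E I) → (∀ x, 0 ≤ f x) →
    ∫⁻ y in {y : M.dom I | M.inc I y ∈ M.cht I' x₀ '' S}, ENNReal.ofReal (f (M.inc I y)) ∂μ =
      ∫⁻ w in {w ∈ S | M.GJ I' I (M.cht I' x₀ w) ≠ 0},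
        ENNReal.ofReal (f (M.cht I' x₀ w) * ‖M.GJ I' I (M.cht I' x₀ w)‖ ^ 2)

/-- **Rem1.** One variable.

PROOF. `g` has finitely many zeros in `closedBall 0 r` (it is not identically zero on `ball 0 R`), none on the circle.
Near a zero `t₀` (isolated): for `t ≠ t₀` close to `t₀`, with `d = |t - t₀|`, the mean value inequality on `B(t, d/2)` gives
`|h t|² ≤ 4/(π d²) ∫_{B(t, d/2)} |h|²`, so `|h t| |t - t₀| → 0` (the integral over small balls around `t₀` tends to `0`), and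
`Complex.differentiableOn_update_limUnder_of_isLittleO` removes the singularity. So there is `k`, differentiable on a neighbourhood of the closed disc, with
`k = h` off the zeros; Cauchy's formula (`DiffContOnCl.circleIntegral_sub_inv_smul`) at `0`. -/
def S_Rem1 : Prop := ∀ (r R : ℝ), 0 < r → r < R → ∀ g h : ℂ → ℂ,
  DifferentiableOn ℂ g (ball 0 R) → (∀ t : ℂ, ‖t‖ = r → g t ≠ 0) → g 0 ≠ 0 →
  DifferentiableOn ℂ h {t ∈ ball 0 R | g t ≠ 0} →
  IntegrableOn (fun t => ‖h t‖ ^ 2) {t ∈ ball 0 R | g t ≠ 0} →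
    (∮ t in C(0, r), t⁻¹ • h t) = (2 * Real.pi * Complex.I) • h 0

/-- **ExtCn.** Square integrable holomorphic functions extend across hypersurfaces.

PROOF. If `g c ≠ 0` take `H = h` and `ρ'` small. Otherwise let `v = w₁ - c ≠ 0` with `g w₁ ≠ 0`, `w₁ ∈ ball c ρ`. The function `t ↦ g (c + t v)` is
holomorphic and not identically zero on a convex neighbourhood of `[0,1]`, so its zero at `0` is isolated: choose
`0 < r < R` with `c + t v ∈ ball c ρ` for `|t| < 2R` and `g (c + t v) ≠ 0` for `|t| = r`; by compactness there is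
`ρ' > 0` with `z + t v ∈ ball c ρ` for `z ∈ ball c ρ'`, `|t| < R` and `g (z + t v) ≠ 0` for `z ∈ ball c ρ'`, `|t| = r`. `H z = (2πi)⁻¹ ∮_{|t|=r} t⁻¹ h (z + t v) dt` is holomorphic on
`ball c ρ'` (`Osgood.differentiableAt_circleIntegral`, see `local_ext` in `Codim.lean`). By Tonelli and translation invariance
`∫_{z ∈ ball c ρ'} ∫_{|t|<R, g(z+tv)≠0} |h(z+tv)|² dt dz ≤ π R² ∫_{ball c ρ, g ≠ 0} |h|² < ∞`, so for almost all `z ∈ ball c ρ'`
the slice is square integrable and `Rem1` gives `H z = h z` if moreover `g z ≠ 0`. Both sides are continuous on the open set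
`{z ∈ ball c ρ' | g z ≠ 0}` and a set of full measure is dense in it. -/
def S_ExtCn : Prop := ∀ (n : ℕ) (c : Cn n) (ρ : ℝ), 0 < ρ → ∀ g h : Cn n → ℂ,
  DifferentiableOn ℂ g (ball c ρ) → (∃ w ∈ ball c ρ, g w ≠ 0) →
  DifferentiableOn ℂ h {w ∈ ball c ρ | g w ≠ 0} →
  IntegrableOn (fun w => ‖h w‖ ^ 2) {w ∈ ball c ρ | g w ≠ 0} →
  ∃ ρ' > 0, ρ' ≤ ρ ∧ ∃ H : Cn n → ℂ, DifferentiableOn ℂ H (ball c ρ') ∧
    ∀ w ∈ ball c ρ', g w ≠ 0 → H w = h w

/-- **Ext.** The `L²` extension theorem on `M`.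

PROOF. Fix `I'`, `G = GJ I' I`, and `u = h G / G^m` on `M.E I ∩ M.E I'` (where `G ≠ 0`). Let `x ∈ M.E I'`, `x₀ = ⟨x, _⟩ : M.dom I'`, `c = z_{I'} x`, and `B = ball c ρ`
with `closedBall c ρ` (compact) in the source of `ch x₀`; `K = M.cht I' x₀ '' closedBall c ρ` is compact. By `Jac` with `S = B`,
`f = ‖h‖² gs_I^m`: `∫_{B, G≠0} ‖h‖² gs_I^m |G|² dw < ∞`. By `gs_change` and `Et.one_le_gs`: `gs_I = gs_{I'} / |G|² ≥ |G|^{-2}`, so
`∫_{B, G ≠ 0} |u ∘ cht|² < ∞`. `G ∘ cht` is not identically zero on `B` because `M.E I` is dense. `ExtCn`: there is `H` holomorphic near `c` with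
`H = u ∘ cht` where `G ≠ 0`; `H_x = H ∘ z_{I'}` is holomorphic near `x` and equals `u` on `M.E I` near `x`. The required function is
`extendFrom (M.E I ∩ M.E I') u`, equal to `H_x` near `x` for every `x ∈ M.E I'` (as in `Glue`; `M.E I ∩ M.E I'` is dense in the open set `M.E I'`). -/
def S_Ext : Prop := ∀ (n N : ℕ) (M : LM n N) (I : Fin n → Fin N), Dense (M.E I) →
  ∀ (μ : Measure (M.dom I)), Pull (M.dom I) μ → ∀ (h : M → ℂ) (m : ℕ),
  (∀ x ∈ M.E I, HolAt M.z h x) →
  (∀ K : Set M, IsCompact K → IntegrableOn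
    (fun y => ‖h (M.inc I y)‖ ^ 2 * M.gs I (M.inc I y) ^ m) {y : M.dom I | M.inc I y ∈ K} μ) →
  ∀ I' : Fin n → Fin N, ∃ H : M → ℂ, (∀ x ∈ M.E I', HolAt M.z H x) ∧
    ∀ x ∈ M.E I ∩ M.E I', H x * M.GJ I' I x ^ m = h x * M.GJ I' I x

/-! ## Weights and exhaustion functions -/

/-- **LevLoc.** Local versions of `LevComp` (see `L2/LevComp.lean`, whose lemmas are local except for the chain rule).

PROOF. Everything depends only on germs: `u = g ∘ π` near `x` with `g` smooth at `π x` (hence near `π x`); compute in `Cn n`. For (f): near `π x` the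
holomorphic function `h = k ∘ π` is not zero; `log ‖k‖² = 2 re (log k)` near `π x` after multiplying `k` by a unit constant such that
`k (π x)` is a positive real number (so that the principal branch is holomorphic near it), and `Lev (re F) = 0` for holomorphic `F` because
`F''(iw, iw) = - F''(w, w)`. -/
def S_LevLoc : Prop := ∀ (n : ℕ) (X : Dom n) (x : X),
  (∀ u v : X → ℝ, u =ᶠ[𝓝 x] v → ∀ w, Lev X u x w = Lev X v x w) ∧
  (∀ u v : X → ℝ, SmAt X u x → SmAt X v x → ∀ w,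
    Lev X (fun y => u y + v y) x w = Lev X u x w + Lev X v x w) ∧
  (∀ (u : X → ℝ) (c : ℝ), SmAt X u x → ∀ w, Lev X (fun y => c * u y) x w = c * Lev X u x w) ∧
  (∀ (s : X → ℝ) (χ : ℝ → ℝ), SmAt X s x → ContDiffAt ℝ ∞ χ (s x) → ∀ w,
    Lev X (fun y => χ (s y)) x w = deriv χ (s x) * Lev X s x w +
      deriv (deriv χ) (s x) * ((dR X s x w) ^ 2 + (dR X s x (Complex.I • w)) ^ 2) / 4) ∧
  (∀ h : X → ℂ, HolAt X.π h x → SmAt X (fun y => ‖h y‖ ^ 2) x ∧ ∀ w,
    Lev X (fun y => ‖h y‖ ^ 2) x w = ‖rd X.hπ h x w‖ ^ 2) ∧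
  (∀ h : X → ℂ, HolAt X.π h x → h x ≠ 0 → SmAt X (fun y => Real.log (‖h y‖ ^ 2)) x ∧ ∀ w,
    Lev X (fun y => Real.log (‖h y‖ ^ 2)) x w = 0)

/-- **LevZ.** PROOF. `nsq z = ∑ |z_k|²`, `gs = ∑_K |GJ I K|²`, `(1 + nsq z) gs = ∑_K |GJ I K|² + ∑_{k,K} |z_k GJ I K|²` are finite sums of
`‖h‖²`, `h` holomorphic on `M.dom I` (`holAt_dom`, `Et.holAt_GJ`), so by `LevComp` (sum rule, by induction; `Lev ‖h‖² = ‖rd h w‖²`; smoothness: `SmAt.of_hol`
and `‖h‖² = re (h conj h)`) `Lev (nsq z) w = ∑_k |(A w)_k|²` (`rd_dom_z`) and `Lev ((1 + nsq z) gs) w ≥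
∑_k |∂(z_k GJ I I)(w)|² = nsq (A w)` since `GJ I I = 1` on `M.E I`. If `M.E I` is nonempty, `I` is injective by
`Et.A_apply` (`(A v)_{I a} = v_a`), so `nsq w = ∑_a |(A w)_{I a}|² ≤ nsq (A w)`. -/
def S_LevZ : Prop := ∀ (n N : ℕ) (M : LM n N) (I : Fin n → Fin N),
  Sm (M.dom I) (fun y => nsq (M.z (M.inc I y))) ∧
  (∀ y w, Lev (M.dom I) (fun y => nsq (M.z (M.inc I y))) y w = nsq (M.A I (M.inc I y) w)) ∧
  (∀ (y : M.dom I) (w : Cn n), nsq w ≤ nsq (M.A I (M.inc I y) w)) ∧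
  Sm (M.dom I) (fun y => M.gs I (M.inc I y)) ∧
  Sm (M.dom I) (fun y => (1 + nsq (M.z (M.inc I y))) * M.gs I (M.inc I y)) ∧
  (∀ y w, nsq w ≤
    Lev (M.dom I) (fun y => (1 + nsq (M.z (M.inc I y))) * M.gs I (M.inc I y)) y w)

/-- **LevInv.** The Levi form does not depend on the coordinates.

PROOF. `u = g ∘ z_I` near `x` with `g` smooth near `z_I x`. Near `x` `z_I = τ ∘ z_{I'}` with `τ` holomorphic near `z_{I'} x`
(`τ = prI I ∘ Z`, `Z` from `Et.holAt_z`), so `u = g ∘ τ ∘ z_{I'}`. The derivative `τ'` of `τ` at `z_{I'} x` maps `w' = prI I' (A I x w)` to `w`: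
`τ' w' = prI I (A I' x w') = prI I (A I x w) = w` (`A_change`, `Et.prI_A`). The real second derivative is
`(g∘τ)''(w',w') = g''(τ'w', τ'w') + g'(τ''(w',w'))`, and `τ''(iw',iw') = - τ''(w',w')`, because the derivative of the
holomorphic map `τ` is complex linear and holomorphic. Add. -/
def S_LevInv : Prop := ∀ (n N : ℕ) (M : LM n N) (I I' : Fin n → Fin N) (u : M → ℝ) (x : M)
  (h : x ∈ M.E I) (h' : x ∈ M.E I'),
  SmAt (M.dom I) (fun y => u (M.inc I y)) (M.mk' I x h) →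
    SmAt (M.dom I') (fun y => u (M.inc I' y)) (M.mk' I' x h') ∧
    ∀ w, Lev (M.dom I) (fun y => u (M.inc I y)) (M.mk' I x h) w =
      Lev (M.dom I') (fun y => u (M.inc I' y)) (M.mk' I' x h') (prI I' (M.A I x w))

/-- **WtE.** The weight.

PROOF. `Lev (log gs_I)` etc. by `LevLoc` (local versions of `LevComp`). (1) For every `r : ℕ` there is `C_r ≥ 0` with `Lev (log gs_I) w ≤ C_r nsq (A I y w)` for all `y` with `nsq (z y) ≤ r`.
The set `{x : E | nsq (z x) ≤ r}` is compact (closed embedding). Every `x : E` has a compact neighbourhood `K_x` inside some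
`E.E I'` (image of a closed ball by `E.cht I'`); on it `|Lev (log gs_{I'}) w'| ≤ C_x nsq w'` (`LevZ`: `gs_{I'}` is smooth and `≥ 1`; the second derivative is
continuous). For `y ∈ K_x ∩ E.E I`: near `y` `log gs_I = log gs_{I'} + log |GJ I I'|²` (`gs_change`), the last function is
pluriharmonic (`LevLoc`), so by `LevInv` `Lev_I (log gs_I) w = Lev_{I'} (log gs_{I'}) w'`, `w' = prI I' (A I y w)`, and
`nsq w' ≤ nsq (A I' y w') = nsq (A I y w)` (`LevZ`, `A_change`). Finitely many `K_x` cover. (2) `χ` from `Wt` with `r_k = 2 C_k + 2`, `a = -1`: `r_{⌈t⌉₊} ≤ χ'(t)` for `t ≥ 0`.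
`LevComp`: `Lev (χ(nsq z)) w ≥ χ'(nsq z) Lev (nsq z) w = χ'(nsq z) nsq (A w) ≥ (2 C + 2) nsq (A w)` with `C = C_{⌈nsq z⌉₊}`. So
`Lev φ w ≥ 2 nsq (A w) ≥ 2 nsq w`. -/
def S_WtE : Prop := ∀ (n N : ℕ) (E : LM n N), Topology.IsClosedEmbedding E.z →
  ∀ I : Fin n → Fin N, ∃ χ : ℝ → ℝ, ContDiff ℝ ∞ χ ∧
    Sm (E.dom I) (fun y => χ (nsq (E.z (E.inc I y))) - 2 * Real.log (E.gs I (E.inc I y))) ∧
    ∀ y w, 2 * nsq w ≤
      Lev (E.dom I) (fun y => χ (nsq (E.z (E.inc I y))) - 2 * Real.log (E.gs I (E.inc I y))) y w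

/-- **Comp.** PROOF. `T = {x ∈ E.E I | (1 + nsq (z x)) gs_I x ≤ c}` is contained in the compact set
`{nsq (z x) ≤ c}` (`gs ≥ 1` on `E.E I`). It is closed in `E`: let `x ∈ closure T`, `x ∈ E.E I'`. On `T ∩ E.E I'` we have
`1 ≤ gs_{I'} = gs_I |GJ I' I|² ≤ c |GJ I' I|²`; so by continuity `1 ≤ c |GJ I' I x|²`, hence `x ∈ E.E I` (`et_iff`), and by continuity of
`(1 + nsq z) gs_I` at `x ∈ E.E I`, `x ∈ T`. So `T` is compact, also as a subset of the subspace `E.E I`. -/
def S_Comp : Prop := ∀ (n N : ℕ) (E : LM n N), Topology.IsClosedEmbedding E.z →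
  ∀ (I : Fin n → Fin N) (c : ℝ),
    IsCompact {y : E.dom I | (1 + nsq (E.z (E.inc I y))) * E.gs I (E.inc I y) ≤ c}

/-- **CutCov.** Cut-off functions on coverings.

PROOF. For `x : X` let `O x` be an open evenly covered neighbourhood of `x`. `PU` for `K`: functions `θ_i`, centres `c_i`, with
`tsupport θ_i ⊆ O (c_i) =: O_i`, `0 ≤ ∑ θ_i ≤ 1`, `∑ θ_i = 1` on an open neighbourhood of `K`. Let
`t_i : p⁻¹(O_i) → O_i × F_i` be the trivialization, `F_i` discrete; `F_i` is countable, because `Y` is second countable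
(if `O_i` is nonempty, `F_i` embeds as disjoint nonempty open sets; otherwise `θ_i = 0`); let `ι_i : F_i → ℕ` be injective.
`κ_ν y = ∑_i θ_{i,ν}(y)`, `θ_{i,ν} y = θ_i (p y)` if `p y ∈ O_i` and `ι_i ((t_i y).2) < ν`, and `0` otherwise. Near a point with
`p y ∈ O_i` the condition is locally constant; near a point with `p y ∉ tsupport θ_i` the function vanishes. So
`κ_ν` is smooth (`Y.π = X.π ∘ p`), `0 ≤ κ_ν ≤ 1`; the support of `θ_{i,ν}` is in the finite union over `k` with `ι_i k < ν` of the compact sets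
`t_i⁻¹ (tsupport θ_i × {k})`; `‖dR κ_ν y‖ ≤ ∑_i ‖dR θ_i (p y)‖ ≤ C` (continuous functions with compact support). If `p y ∈ K`: for each `i` either
`p y ∈ O_i`, and for `ν > ι_i ((t_i y).2)` `θ_{i,ν} = θ_i ∘ p` near `y`, or `p y ∉ tsupport θ_i` and both vanish near `y`; so
`κ_ν = ∑ θ_i ∘ p = 1` near `y` for large `ν`. -/
def S_CutCov : Prop := ∀ (n : ℕ) (X Y : Dom n) (p : Y → X), IsCoveringMap p →
  (∀ y, Y.π y = X.π (p y)) → ∀ K : Set X, IsCompact K →
  ∃ (C : ℝ) (κ : ℕ → Y → ℝ), (∀ ν, CS Y (κ ν) ∧ ∀ x, 0 ≤ κ ν x ∧ κ ν x ≤ 1) ∧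
    (∀ ν x, ‖dR Y (κ ν) x‖ ≤ C) ∧ ∀ x, p x ∈ K → ∀ᶠ ν in atTop, ∀ᶠ y in 𝓝 x, κ ν y = 1

/-- **Exh.** The exhaustion function of coverings of Stein manifolds.

PROOF. `p` maps `M.E I = p⁻¹ (E.E I)` (`et_transport`) to `E.E I`, and its restriction `M.dom I → E.dom I` is a covering map
(restriction of a covering map to the preimage of an open set) which respects `π` and the functions (`gs_transport`, `M.z = E.z ∘ p`). `sm`, `lev` (`δ = 1`) by
`LevZ`; `grad`: the derivative at `y` is the derivative of the corresponding function of `E.dom I` at the image, which is continuous, so bounded on the compact set of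
`Comp`; `cut`: `CutCov` with the compact set of `Comp`. -/
def S_Exh : Prop := ∀ (n N : ℕ) (E M : LM n N), Topology.IsClosedEmbedding E.z → ∀ p : M → E,
  IsCoveringMap p → (∀ x, M.z x = E.z (p x)) → ∀ I : Fin n → Fin N,
    Exh (M.dom I) (fun y => (1 + nsq (M.z (M.inc I y))) * M.gs I (M.inc I y))

/-! ## Functions and vector fields on Stein manifolds, separation of points on coverings -/

/-- **Fun.** Functions with `F ∂/∂z_{I b}` holomorphic.

PROOF. `μ` from `Meas`, `χ`, `φ` from `WtE`, `Exh` with `M = E`, `p = id`. `Eval` with `a = b = ⟨e, _⟩` gives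
`h` holomorphic on `E.dom I`, `|h a - 1| < 1/4`; as a function on `E` let `h = 0` off `E.E I`. If `K` is compact, `nsq z ≤ r` on `K`, `nsq (z_I) ≤ n r`, and
`e^{-φ} = e^{-χ(nsq z)} gs² ≥ δ gs²` on `K`, so `‖h‖² gs²` is integrable over `K`. `Ext` with `m = 2` (`Dense` by `Conn`): `H G² = h G`, `G = GJ I' I`, so
`h = H G` on `E.E I ∩ E.E I'` (`G ≠ 0` there). Let `F = h` on `E.E I`, `F = 0` elsewhere. On `E.E I'` we have `F = H G` everywhere (`G = 0` on
`E.E I' \ E.E I` by `et_iff`), so `F` is holomorphic, and `Q = H`. -/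
def S_Fun : Prop := ∀ (n N : ℕ), 0 < n → ∀ E : LM n N, Topology.IsClosedEmbedding E.z →
  ConnectedSpace E → ∀ (I : Fin n → Fin N) (e : E), e ∈ E.E I →
  ∃ F : E → ℂ, (∀ x, HolAt E.z F x) ∧ F e ≠ 0 ∧ (∀ x ∉ E.E I, F x = 0) ∧
    ∀ I' : Fin n → Fin N, ∃ Q : E → ℂ, (∀ x ∈ E.E I', HolAt E.z Q x) ∧
      ∀ x ∈ E.E I ∩ E.E I', F x = Q x * E.GJ I' I x

/-- **VF.** The vector fields `F ∂/∂z_{I b}` (as `ℂᴺ`-valued functions).

PROOF. `Glue` with `u x = F x • A I x e_b`. For `I'` let `J x` be the matrix `(A I' x e_c)_{I a}` (rows `a`, columns `c`), `det J = GJ I' I`. On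
`E.E I ∩ E.E I'` the vector `v = prI I' (A I x e_b)` satisfies `J v = e_b` (`A_change`, `Et.A_apply`), so `adjugate J` applied to `e_b` is
`GJ I' I • v`, and `F • A I x e_b = F • A I' x v = Q • A I' x (adjugate J e_b)`, holomorphic on `E.E I'` (entries of the adjugate are determinants,
`Matrix.adjugate_apply`, `HolAt.det`). Tangency: on `E.E I ∩ E.E I'` by `A_change`; by density and continuity on `E.E I'`. -/
def S_VF : Prop := ∀ (n N : ℕ) (E : LM n N) (I : Fin n → Fin N), Dense (E.E I) → ∀ F : E → ℂ,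
  (∀ x, HolAt E.z F x) →
  (∀ I' : Fin n → Fin N, ∃ Q : E → ℂ, (∀ x ∈ E.E I', HolAt E.z Q x) ∧
      ∀ x ∈ E.E I ∩ E.E I', F x = Q x * E.GJ I' I x) →
  ∀ b : Fin n, ∃ V : E → Cn N, (∀ x, HolAt E.z V x) ∧
    (∀ x ∈ E.E I, V x = F x • E.A I x (Pi.single b 1)) ∧
    ∀ I' : Fin n → Fin N, ∀ x ∈ E.E I', E.A I' x (prI I' (V x)) = V x

/-- **Sep.** Coverings of Stein manifolds: points of a fibre are separated by holomorphic functions.

PROOF. Let `e = p a ∈ E.E I`, `F` from `Fun`. `M.E I = p⁻¹(E.E I)` contains `a` and `b`, it is dense (`Conn`). `μ` from `Meas` on `M.dom I`,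
`φ = 2 nsq z` (`LevZ`, `LevComp`: `Lev φ w = 2 nsq (A w) ≥ 2 nsq w`), `Exh`. `Eval`: `h` holomorphic on `M.dom I` with `|h a - 1| < 1/4`, `|h b| < 1/4`. For compact `K ⊆ M`,
`nsq z ≤ r` on `K`, so `nsq z_I ≤ n r`, `e^{-φ} ≥ e^{-2r}`, and `‖h‖²` is integrable over `K`. `Ext` with `m = 0`: for every
`I'` there is `H` holomorphic on `M.E I'` with `H = h GJ I' I` on `M.E I ∩ M.E I'`. With `Q` from `Fun` (`GJ_transport`): `h · (F ∘ p) = H · (Q ∘ p)` on
`M.E I ∩ M.E I'`. `Glue`: there is `g` holomorphic on `M`, `g = h · (F ∘ p)` on `M.E I`; `g a - g b = F e (h a - h b) ≠ 0`. -/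
def S_Sep : Prop := ∀ (n N : ℕ), 0 < n → ∀ E M : LM n N, Topology.IsClosedEmbedding E.z →
  ConnectedSpace E → ConnectedSpace M → ∀ p : M → E, IsCoveringMap p →
  (∀ x, M.z x = E.z (p x)) → ∀ a b : M, p a = p b → a ≠ b →
    ∃ g : M → ℂ, (∀ x, HolAt M.z g x) ∧ g a ≠ g b

/-- **Inj.** PROOF. Let `p a = p b`, `a ≠ b`, `M' = E.pull (p a local homeomorphism)`, `g` from `Sep`. The function `g ∘ s` is holomorphic on
`U` (near `x ∈ U`, `s` is the local inverse of `p` at `s x`: `p (s x') = x'` and `s x'` is near `s x`; `g = g₀ ∘ E.z ∘ p` near `s x`, so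
`g (s x') = g₀ (E.z x')`), so by `ExtU` it extends to `G : E → ℂ` holomorphic. `G ∘ p` is holomorphic on `M'` (`holAt_transport`) and equals `g` near
`s x₀`, `x₀ ∈ U`: for `m` near `s x₀`, `p m ∈ U` is near `x₀`, `s (p m)` is near `s x₀`, and `p` is injective near `s x₀`, so `s (p m) = m`. `Ident`: `g = G ∘ p`, so
`g a = g b`. -/
def S_Inj : Prop := ∀ (n N : ℕ), 0 < n → ∀ E : LM n N, Topology.IsClosedEmbedding E.z →
  ConnectedSpace E → ∀ U : Set E, IsOpen U → U.Nonempty → ExtU E U →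
  ∀ (M : Type) [TopologicalSpace M] [T2Space M] [SecondCountableTopology M] [ConnectedSpace M]
    (p : M → E) (s : E → M), IsCoveringMap p → ContinuousOn s U → (∀ x ∈ U, p (s x) = x) →
    Function.Injective p

/-! ## Differential forms -/

/-- **FormU.** The forms of a holomorphic map to `X_0` in a manifold.

PROOF. For `x ∈ U` choose a lift `w_x` (`exists_lift`, `M.cont`) and `I_x` with `x ∈ M.E I_x`. For `w` with `CHolAt M.z w y` and `y ∈ M.E I` let
`mc w I y = MC (M.dom I).hπ (w ∘ inc) ⟨y, _⟩` (`Forms.lean`). `θ_i x = (mc w_x I_x x)_i ∘ prI I_x` for `x ∈ U` (`0` otherwise). Claim: for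
`x ∈ U`, all `y` near `x` and all `I` with `y ∈ M.E I`: `fr I θ_i y = (mc w_x I y)_i`. Indeed `w_y = ofGam γ * w_x` near `y` (`lifts_eq`), so
`mc w_y I y = mc w_x I y` (`MC_congr`, `MC_mul_left`), and `mc w I y = mc w I_y y ∘ prI I_y ∘ A I y` by `HasRD.change` (`rd` is characterized by `HasRD`: `hasRD_dom`, `HolAt.hasRD`,
`HasRD.rd_eq`). Now `MC_holAt` gives `HolForm` (via `holAt_dom`, `holAt_iff`), `MC_solAt` gives `SolE`. -/
def S_FormU : Prop := ∀ (n N : ℕ) (M : LM n N) (U : Set M), IsOpen U → ∀ f : M → Y0,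
  (∀ x ∈ U, HolMapAt M.z (XX 0) f x) → ∃ θ₁ θ₂ θ₃ : M → (Cn N →L[ℂ] ℂ), ∀ x ∈ U,
    HolForm M θ₁ x ∧ HolForm M θ₂ x ∧ HolForm M θ₃ x ∧
    ∃ w : M → CAff, CHolAt M.z w x ∧ (∀ᶠ y in 𝓝 x, f y = PP (w y)) ∧
      ∀ᶠ y in 𝓝 x, SolE M θ₁ θ₂ θ₃ w y

/-- **FormE.** Holomorphic differential forms extend.

PROOF. For `e : E` choose `I_e` with `e ∈ E.E I_e` (dense, `Conn`), `F_e` (`Fun`), `V^e_b`, `b = 1..n` (`VF`). The function `x ↦ θ x (V^e_b x)` is
holomorphic on `U`: for `x ∈ U ∩ E.E I'` it is near `x` equal to `(fr I' θ y)(prI I' (V^e_b y))` (tangency). Let `B^e_b` be its extension to `E` (`ExtU`).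
Identity (*): `F_e'(x) B^e_b(x) = ∑_c B^{e'}_c(x) (V^e_b x)_{I_{e'} c}` for all `x`, `e`, `e'`: both sides are holomorphic, and on the nonempty open set
`U ∩ E.E I_{e'}` the right side is `θ x (∑_c (V^e_b x)_{I' c} F_{e'}(x) A I' x e_c) = F_{e'}(x) θ x (A I' x (prI I' (V^e_b x))) =
F_{e'}(x) θ x (V^e_b x)`; `Ident`. Define `θ' y v = ∑_c (B^y_c(y) / F_y(y)) v_{I_y c}`. Then for every `e` and `y` with `F_e(y) ≠ 0` (so `y ∈ E.E I_e`):
`(fr I_e θ' y) e_b = θ' y (V^e_b y) / F_e(y) = B^e_b(y) / F_e(y)` by (*) with `e' = y`. So near `e`, `fr I_e θ'` is holomorphic; and for `e ∈ E.E I`: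
`fr I θ' y = fr I_e θ' y ∘ (prI I_e ∘ A I y)` (`A_change`), holomorphic. On `U`: `(fr I_e θ' e) e_b = B^e_b(e)/F_e(e) = θ e (A I_e e e_b)`, i.e. `fr I_e θ' e = fr I_e θ e`, and then
`fr I θ' e = fr I θ e` for all `I` by `A_change`. -/
def S_FormE : Prop := ∀ (n N : ℕ), 0 < n → ∀ E : LM n N, Topology.IsClosedEmbedding E.z →
  ConnectedSpace E → ∀ U : Set E, IsOpen U → U.Nonempty → ExtU E U →
  ∀ θ : E → (Cn N →L[ℂ] ℂ), (∀ x ∈ U, HolForm E θ x) →
  ∃ θ' : E → (Cn N →L[ℂ] ℂ), (∀ x, HolForm E θ' x) ∧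
    ∀ x ∈ U, ∀ I, Et E.z I x → E.fr I θ' x = E.fr I θ x

/-- **Closed.** PROOF. On `U` by `closedAt_of_solAt` in `M.dom I` (transfer `SolAt` to `M.dom I` by `hasRD_dom`, forms by `holAt_dom`). For each `I` with `M.E I` nonempty,
`M.dom I` is connected and `U ∩ M.E I` is nonempty (`Conn`), and the three expressions of `ClosedAt` (for fixed `u`, `v`) are
holomorphic on `M.dom I`, so they vanish by `identity` (see the proof of `positive` in `Positive.lean`). -/
def S_Closed : Prop := ∀ (n N : ℕ) (M : LM n N), ConnectedSpace M →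
  ∀ θ₁ θ₂ θ₃ : M → (Cn N →L[ℂ] ℂ), (∀ x, HolForm M θ₁ x ∧ HolForm M θ₂ x ∧ HolForm M θ₃ x) →
  ∀ U : Set M, IsOpen U → U.Nonempty →
  (∀ x ∈ U, ∃ w : M → CAff, ∀ᶠ y in 𝓝 x, SolE M θ₁ θ₂ θ₃ w y) → ∀ x, ClosedE M θ₁ θ₂ θ₃ x

/-- **SolInv.** PROOF. (1) `HasRD.change_A` (the forms are `(c • θ₁ x) ∘ A I x` etc.). (2) `SolAt.eventually_const` in `M.dom I`, `x ∈ M.E I` (transfer by `hasRD_dom`;
`𝓝` of `M.dom I` is mapped to `𝓝` of `M`). (3) `SolAt.mul_left`, `CHolAt.of_solAt` in `M.dom I`, `holAt_dom`. -/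
def S_SolInv : Prop := ∀ (n N : ℕ) (M : LM n N) (θ₁ θ₂ θ₃ : M → (Cn N →L[ℂ] ℂ)),
  (∀ (w : M → CAff) (I : Fin n → Fin N) (x : M), Et M.z I x →
    SolAt (M.zI I) (fun y => (M.fr I θ₁ y, M.fr I θ₂ y, M.fr I θ₃ y)) w x →
      SolE M θ₁ θ₂ θ₃ w x) ∧
  (∀ (w w' : M → CAff) (x : M), (∀ᶠ y in 𝓝 x, SolE M θ₁ θ₂ θ₃ w y ∧ SolE M θ₁ θ₂ θ₃ w' y) →
    ∀ᶠ y in 𝓝 x, w' y * (w y)⁻¹ = w' x * (w x)⁻¹) ∧
  (∀ (w : M → CAff) (x : M) (b : CAff), (∀ᶠ y in 𝓝 x, SolE M θ₁ θ₂ θ₃ w y) →
    CHolAt M.z (fun y => b * w y) x)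

/-- **LocSol.** PROOF. `x ∈ M.E I`; `exists_solution` on `M.dom I` gives `w₀` on `M.dom I` near `⟨x, _⟩`; `w y = w₀ ⟨y, _⟩` for
`y ∈ M.E I`, `1` otherwise; `hasRD_dom`, and `SolInv` (1). -/
def S_LocSol : Prop := ∀ (n N : ℕ) (M : LM n N) (θ₁ θ₂ θ₃ : M → (Cn N →L[ℂ] ℂ)),
  (∀ x, HolForm M θ₁ x ∧ HolForm M θ₂ x ∧ HolForm M θ₃ x) → (∀ x, ClosedE M θ₁ θ₂ θ₃ x) →
  ∀ x, ∃ (w : M → CAff) (O : Set M), IsOpen O ∧ x ∈ O ∧ ∀ y ∈ O, SolE M θ₁ θ₂ θ₃ w y

/-! ## Coverings -/

/-- **PV.** Poincaré and Volterra, for coverings.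

PROOF. `B` is covered by countably many open evenly covered sets `U_i` (Lindelöf). The sheets
`V_{i,k} = t_i⁻¹(U_i × {k})`, `k ∈ F_i`, are open in `M` and homeomorphic to `U_i`, so second countable. A sheet meets only
countably many sheets: for fixed `j` the sets `V_{i,k} ∩ V_{j,l}`, `l ∈ F_j`, are disjoint and open in the second countable space `V_{i,k}`. Start with one nonempty sheet
and take all sheets reachable by finite chains of intersecting sheets: a countable family. Its union is open, and so is the union of all the other sheets; they are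
disjoint and cover `M`. `M` is connected, so `M` is a countable union of open second countable subspaces
(`TopologicalSpace.secondCountableTopology_of_countable_cover`). -/
def S_PV : Prop := ∀ (B M : Type) [TopologicalSpace B] [TopologicalSpace M],
  SecondCountableTopology B → ConnectedSpace M → ∀ p : M → B, IsCoveringMap p →
  SecondCountableTopology M

/-- **CompCov.** Components of coverings are coverings.

PROOF. `Z` is locally connected (locally homeomorphic to `B`), so components are open. Let `b : B`, `O` an open evenly covered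
neighbourhood with trivialization `t`, and `V ⊆ O` a connected open neighbourhood of `b`. Each sheet
`t⁻¹(V × {k})` is connected, so it is contained in `M = connectedComponent z₀` or disjoint from it. So `M ∩ p⁻¹(V)` is homeomorphic by `t` to
`V × F'`, where `F' = {k | t⁻¹(b, k) ∈ M}` (discrete): a trivialization of `M → B` over `V`. -/
def S_CompCov : Prop := ∀ (B Z : Type) [TopologicalSpace B] [TopologicalSpace Z],
  LocallyConnectedSpace B → ∀ p : Z → B, IsCoveringMap p → ∀ z₀ : Z,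
    IsOpen (connectedComponent z₀) ∧ IsCoveringMap (fun y : connectedComponent z₀ => p y.1)

/-- **Sys.** Sections of a local system.

PROOF. As in `glue` (`Cover.lean`): `Z = core ac .. O .. w`, `Z.proj` is a covering; `σ x = ⟨x, ac (f x) (w x x)⁻¹⟩` is
continuous on `U` (same computation as in `glue`). Let `x₀ ∈ U` and `M = connectedComponent (σ x₀)`; `σ '' U ⊆ M`. `Z` is Hausdorff (covering of a
Hausdorff space), `M → B` is a covering (`CompCov`), `M` is second countable (`PV`), connected. `s x = σ x` for `x ∈ U` and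
`s x = σ x₀` otherwise. By hypothesis `p` is injective. `p` is onto: its image is open, and closed because a point of the closure has an evenly covered neighbourhood
meeting the image, so a nonempty fibre. So `p` is a homeomorphism; let `τ` be its inverse, a continuous section of `Z.proj`, with `τ = σ` on `U`.
`f' y = ac (τ y).2 (w y y)`, and the conclusion follows from the continuity of `τ` exactly as in `glue`. -/
def S_Sys : Prop := ∀ (B Y G : Type) [TopologicalSpace B] [Group G], T2Space B →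
  SecondCountableTopology B → LocallyConnectedSpace B → ConnectedSpace B →
  ∀ ac : Y → G → Y, (∀ y a b, ac (ac y a) b = ac y (a * b)) → (∀ y, ac y 1 = y) →
  ∀ O : B → Set B, (∀ i, IsOpen (O i)) → (∀ i, i ∈ O i) → ∀ w : B → B → G,
  (∀ i k, ∀ y ∈ O i ∩ O k, ∀ᶠ y' in 𝓝 y, w i y' * (w k y')⁻¹ = w i y * (w k y)⁻¹) →
  ∀ U : Set B, IsOpen U → IsConnected U → ∀ f : B → Y,
  (∀ x ∈ U, ∀ᶠ x' in 𝓝 x, ac (f x') (w x x')⁻¹ = ac (f x) (w x x)⁻¹) →
  (∀ (M : Type) [TopologicalSpace M] [T2Space M] [SecondCountableTopology M] [ConnectedSpace M]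
    (p : M → B) (s : B → M), IsCoveringMap p → ContinuousOn s U → (∀ x ∈ U, p (s x) = x) →
    Function.Injective p) →
  ∃ f' : B → Y, (∀ x ∈ U, f' x = f x) ∧
    ∀ y, ∀ᶠ y' in 𝓝 y, ac (f' y') (w y y')⁻¹ = ac (f' y) (w y y)⁻¹

/-- **MainPos.** Extension of holomorphic maps to `X_0`, the main theorem on `E`. -/
def S_MainPos : Prop := ∀ (n N : ℕ), 0 < n → ∀ E : LM n N, Topology.IsClosedEmbedding E.z →
  ConnectedSpace E → ∀ U : Set E, IsOpen U → IsConnected U → ExtU E U → ∀ f : E → Y0,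
  (∀ x ∈ U, HolMapAt E.z (XX 0) f x) →
  ∃ f' : E → Y0, (∀ x, HolMapAt E.z (XX 0) f' x) ∧ ∀ x ∈ U, f' x = f x

end Pool.Agent.Lib.MP_55bc5f_an
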