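import Mathlib
import Pool.Agent.Lib.MP_55bc5f_an.Full.Defs
import Pool.Agent.Lib.MP_55bc5f_an.Full.SpecEt

/-!
# Translation to manifolds: statements and paper proofs
-/

set_option autoImplicit false

open scoped Manifold ContDiff Topology ComplexConjugate
open Set Filter Metric MeasureTheory

namespace Pool.Agent.Lib.MP_55bc5f_an

/-- `ι : M → ℂᴺ` is a holomorphic immersion. -/
def Imm {V : Type} [NormedAddCommGroup V] [NormedSpace ℂ V] (M : CMan V) {N : ℕ} (ι : M → Cn N) :
    Prop :=
  MDifferentiable 𝓘(ℂ, V) 𝓘(ℂ, Cn N) ι ∧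
    ∀ x, Function.Injective (mfderiv 𝓘(ℂ, V) 𝓘(ℂ, Cn N) ι x)

/-- **Minor.** PROOF. The linear functionals `proj k ∘ L`, `k : Fin N`, have no common zero `≠ 0`, so they span the dual space
of `ℂⁿ` (`n`-dimensional), hence some `n` of them are a basis (`exists_linearIndependent`, `Basis.ofSpan`-like lemmas); for these the map
`(prI I).comp L` is injective, so its determinant is not zero. -/
def S_Minor : Prop := ∀ (n N : ℕ) (L : Cn n →L[ℂ] Cn N), Function.Injective L →
  ∃ I : Fin n → Fin N,
    LinearMap.det (((prI I).comp L : Cn n →L[ℂ] Cn n) : Cn n →ₗ[ℂ] Cn n) ≠ 0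

/-- **TrLM.** PROOF. Let `φ = chartAt V x`, `T : V ≃L[ℂ] Cn n` (`n = finrank`), `e = φ.trans T.toHomeomorph.toOpenPartialHomeomorph`. The map
`ι ∘ e.symm` is differentiable on `e.target` (`MDifferentiable` in the chart), its derivative at `e x` is the composition of the manifold derivative of `ι`
with the (invertible) derivatives of the charts, hence injective. `Minor` gives `I`, and `et_mk` the claim. -/
def S_TrLM : Prop := ∀ (V : Type) [NormedAddCommGroup V] [NormedSpace ℂ V]
  [FiniteDimensional ℂ V] (M : CMan V) (N : ℕ) (ι : M → Cn N), Imm M ι →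
  ∀ x, ∃ I : Fin (Module.finrank ℂ V) → Fin N, Et ι I x

/-- **Retr.** Local holomorphic left inverses of immersions.

PROOF. `φ = chartAt V x`, `Z = ι ∘ φ.symm` is differentiable on `φ.target` with injective derivative `D` at `φ x` (as in `TrLM`); let `T : Cn N →L[ℂ] V` with
`T ∘ D = id` (a linear left inverse in finite dimension). `f = T ∘ Z` is holomorphic on `φ.target` (analytic, `Osgood.analyticOnNhd`, so `ContDiffAt ℂ ω`) with derivative `id` at
`φ x`; the inverse function theorem (as in `et_mk` in `EtA.lean`) gives `ψ`, differentiable near `f (φ x) = T (ι x)`, with `ψ (f v) = v` near `φ x`. Let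
`ρ = φ.symm ∘ ψ ∘ T`. `φ.symm` is `MDifferentiableAt` at the points of `φ.target`. -/
def S_Retr : Prop := ∀ (V : Type) [NormedAddCommGroup V] [NormedSpace ℂ V]
  [FiniteDimensional ℂ V] (M : CMan V) (N : ℕ) (ι : M → Cn N), Imm M ι → ∀ x, ∃ ρ : Cn N → M,
    (∀ᶠ w in 𝓝 (ι x), MDifferentiableAt 𝓘(ℂ, Cn N) 𝓘(ℂ, V) ρ w) ∧ ρ (ι x) = x ∧
      ∀ᶠ y in 𝓝 x, ρ (ι y) = y

/-- **TrHol.** PROOF. With `ρ` from `Retr`: `F = (F ∘ ρ) ∘ ι` near `x`, and `F ∘ ρ` is `MDifferentiableAt`, i.e. `DifferentiableAt`, near `ι x` if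
`F` is `MDifferentiableAt` near `x` (`ρ` is continuous at `ι x`, `ρ (ι x) = x`). Conversely if `F = g ∘ ι` near `x`, then `F` is
`MDifferentiableAt` at all points near `x`. -/
def S_TrHol : Prop := ∀ (V : Type) [NormedAddCommGroup V] [NormedSpace ℂ V]
  [FiniteDimensional ℂ V] (M : CMan V) (N : ℕ) (ι : M → Cn N), Imm M ι → ∀ (W : Type)
  [NormedAddCommGroup W] [NormedSpace ℂ W] (F : M → W) (x : M),
    HolAt ι F x ↔ ∀ᶠ y in 𝓝 x, MDifferentiableAt 𝓘(ℂ, V) 𝓘(ℂ, W) F y

/-- **TrMap.** PROOF. The same. -/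
def S_TrMap : Prop := ∀ (V : Type) [NormedAddCommGroup V] [NormedSpace ℂ V]
  [FiniteDimensional ℂ V] (M : CMan V) (N : ℕ) (ι : M → Cn N), Imm M ι → ∀ (E : Type)
  [NormedAddCommGroup E] [NormedSpace ℂ E] (Y : CMan E) (F : M → Y) (x : M),
    HolMapAt ι Y F x ↔ ∀ᶠ y in 𝓝 x, MDifferentiableAt 𝓘(ℂ, V) 𝓘(ℂ, E) F y

/-- **MfdPos.** Extension of holomorphic maps to `X_0`.

PROOF. `ι : R → ℂᴺ` from `IsStein R`; `n = finrank ℂ V`. If `n = 0`: `R` is discrete and connected, so it has one point and `j` is a bijection;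
`f' = f ∘ j⁻¹` (every map from a space with discrete charts is `MDifferentiable`: `V` is a subsingleton). If `n > 0`, let
`E : LM n N` be `R` with `z = ι` (`TrLM`), `U = range j` (open, connected, as the image of `D`). `ExtU E U`: if `h` is holomorphic at the points of
`U`, then `h ∘ j` is `MDifferentiable` (`TrHol`, composition), extend it to `H` on `R`, `H = h` on `U`, `TrHol`. Let `g y = f (j⁻¹ y)` for `y ∈ U` (anything otherwise).
`HolMapAt ι (XX 0) g` at `j x`: `Imm D (ι ∘ j)` (the chain rule for `mfderiv`), so by `TrMap` for `D` `f = k ∘ ι ∘ j` near `x`, and since `j` is an open embedding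
`g = k ∘ ι` near `j x`. `MainPos` gives `f'`, and `TrMap` for `R` that it is `MDifferentiable`. -/
def S_MfdPos : Prop := ∀ (V : Type) [NormedAddCommGroup V] [NormedSpace ℂ V]
  [FiniteDimensional ℂ V] (D R : CMan V) (j : D → R), ConnectedSpace D → IsEnvelopeM D R j →
  ∀ f : D → XX 0, MDifferentiable 𝓘(ℂ, V) 𝓘(ℂ, ℂ × ℂ × ℂ) f →
  ∃ f' : R → XX 0, MDifferentiable 𝓘(ℂ, V) 𝓘(ℂ, ℂ × ℂ × ℂ) f' ∧ ∀ x, f' (j x) = f x

/-- **MeroHol.** Meromorphic maps to `X_0` are holomorphic.

PROOF. Let `x : M`, `φ = chartAt V x`, `B` a ball around `φ x` in `φ.target`, `e = φ.restr (φ.symm '' B)` (or `φ ≫ restriction`), an element of the maximal atlas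
(`restr_mem_maximalAtlas`) with `e.target = B`. So `G_e = {w | (e.symm w.1, w.2) ∈ G}` is meromorphic (`IsMeromorphic`), `generic` gives `A`, `g`. The theorem
`positive` (`Positive.lean`) with `D = R = e.target`, `p = q = Subtype.val`, `j = id` (`IsRiemannDomain`: `B` is convex; functions extend trivially; `PiOneOnto id`) gives
`g' : e.target → X_0` holomorphic, `g' = g` off `A`. `G_e = {w | w.2 = g' w.1}`: closure argument as in `positive_mero`. So for every `x : M` there is exactly one `y` with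
`(x, y) ∈ G`; call it `f x`. Near `x` `f = g' ∘ φ`, so `f` is `MDifferentiableAt x` (from `HolMapAt` and the differentiability of `φ`). -/
def S_MeroHol : Prop := ∀ (V : Type) [NormedAddCommGroup V] [NormedSpace ℂ V]
  [FiniteDimensional ℂ V] (M : CMan V) (G : Set (M × XX 0)), IsMeromorphicM M (XX 0) G →
  ∃ f : M → XX 0, MDifferentiable 𝓘(ℂ, V) 𝓘(ℂ, ℂ × ℂ × ℂ) f ∧ G = {w | w.2 = f w.1}

/-- **MeroGraph.** PROOF. For `e` in the maximal atlas: `isMeromorphic_graph` (`Graph.lean`) for the map `x ↦ f (e.symm x)` on `e.target`, which is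
`HolMapAt Subtype.val` with `g = f ∘ e.symm` (`e.symm` is `MDifferentiableAt` at the points of the open set `e.target`:
`contMDiffOn_symm_of_mem_maximalAtlas`). -/
def S_MeroGraph : Prop := ∀ (V : Type) [NormedAddCommGroup V] [NormedSpace ℂ V]
  (E : Type) [NormedAddCommGroup E] [NormedSpace ℂ E] [FiniteDimensional ℂ E] (M : CMan V)
  (Y : CMan E) (f : M → Y), MDifferentiable 𝓘(ℂ, V) 𝓘(ℂ, E) f →
    IsMeromorphicM M Y {w | w.2 = f w.1}

/-- The vector space `V` as a complex manifold. -/
noncomputable def selfMan (V : Type) [NormedAddCommGroup V] [NormedSpace ℂ V] [SecondCountableTopology V] :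
    CMan V where
  carrier := V

/-- **MerId.** PROOF. Take the chart `e = OpenPartialHomeomorph.refl V`, `e.target = univ`, and transport all parts of `IsMeromorphic` by the
homeomorphism `univ ≃ V` (`Homeomorph.Set.univ`). -/
def S_MerId : Prop := ∀ (V : Type) [NormedAddCommGroup V] [NormedSpace ℂ V]
  [SecondCountableTopology V] (E : Type) [NormedAddCommGroup E] [NormedSpace ℂ E] (Y : CMan E)
  (G : Set (V × Y)), IsMeromorphicM (selfMan V) Y G → IsMeromorphic (id : V → V) Y G

/-- **Neg.** PROOF. `V = ℂ × ℂ`, `S = R = selfMan V`, `D = Dt t` (as an open subset of `selfMan V`), `j = Subtype.val`. Stein: `ι z = ![z.1, z.2]` is a linear isomorphism.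
`Dt t` is connected (instance in `Extend.lean`, `Negative.lean`). Envelope: `j` is holomorphic with bijective derivative (`hasMFDerivAt_val`, `mfderiv_val` in `Deform.lean`), every holomorphic function on
`Dt t` extends (`extend_Dt`, see `envelope_Dt` and `exists_differentiableOn_of_hol`). The map `gneg t : Dt t → XX t` is holomorphic (`gneg_hol`, and the
proof there shows `MDifferentiable`). Its graph is meromorphic (`MeroGraph`). If `G'` is an extension, `MerId` and `no_ext` give a contradiction. -/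
def S_Neg : Prop := ∀ t : ℂ, t ≠ 0 → ¬ MEP (XX t)

end Pool.Agent.Lib.MP_55bc5f_an
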